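import Pool.Agent.PcfInc.Enum
import Pool.Agent.Helper6.Pcf.Final
import Pool.Agent.Helper6.Pcf.PIntSelf

/-!
The ideal of bounded sets.
-/

universe u

open Cardinal Ordinal Set Pool.Agent.Helper6.Pcf

namespace Pool.Agent.PcfInc

section

variable {kappa mu lam : Cardinal.{u}}

theorem Jbd_ideal (hk : kappa.IsRegular) : IsKIdeal kappa (Jbd kappa.ord.ToType) := by
  refine ⟨?_, ?_, ?_⟩
  · rintro ⟨b, hb⟩
    have h1 : (ToType.toOrd b).1 < kappa.ord := (ToType.toOrd b).2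
    have h2 := lt_add_one_ord hk h1
    have h3 := hb (ToType.mk ⟨(ToType.toOrd b).1 + 1, h2⟩) (Set.mem_univ _)
    have h4 := (ToType.mk.symm).monotone h3
    have h6 : (ToType.mk.symm (ToType.mk ⟨(ToType.toOrd b).1 + 1, h2⟩) : Set.Iio kappa.ord) =
      ⟨(ToType.toOrd b).1 + 1, h2⟩ := ToType.mk.symm_apply_apply _
    rw [h6] at h4
    have h5 : (ToType.toOrd b).1 + 1 ≤ (ToType.toOrd b).1 := h4
    exact absurd h5 (not_le.2 (Order.lt_add_one_iff.2 le_rfl))
  · rintro X Y hXY ⟨b, hb⟩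
    exact ⟨b, fun x hx => hb x (hXY hx)⟩
  · intro S hS hc
    have h1 : ∀ X : S, ∃ b, ∀ x ∈ X.1, x ≤ b := fun X => hS X.2
    choose b hb using h1
    have h2 : (⨆ X : S, (ToType.toOrd (b X)).1) < kappa.ord := by
      apply Ordinal.iSup_lt_of_lt_cof
      · rw [hk.cof_ord]; exact hc
      · intro X; exact (ToType.toOrd (b X)).2
    refine ⟨ToType.mk ⟨_, h2⟩, ?_⟩
    rintro x ⟨X, hX, hx⟩
    have h3 := hb ⟨X, hX⟩ x hx
    have h4 : ToType.toOrd x ≤ (⟨_, h2⟩ : Set.Iio kappa.ord) := by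
      have h5 := (ToType.mk.symm).monotone h3
      refine h5.trans ?_
      show (ToType.toOrd (b ⟨X, hX⟩)).1 ≤ _
      exact Ordinal.le_iSup (fun X : S => (ToType.toOrd (b X)).1) ⟨X, hX⟩
    have h5 := ToType.mk.monotone h4
    simpa using h5

end

end Pool.Agent.PcfInc
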