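import Pool.Agent.Helper6.Pcf.ExChi
import Pool.Agent.PcfInc.Basics

/-!
The cardinals at which a given cardinal is represented by members of the spectrum.
-/

universe u

open Cardinal Ordinal Set Pool.Agent.Helper6.Pcf

namespace Pool.Agent.PcfInc

/-- `lam` is represented at `chi` by a family of members of `S` -/
def RepIn (kappa chi lam : Cardinal.{u}) (S : Set Cardinal.{u}) : Prop :=
  ∃ (I : Type u) (L : I → Cardinal.{u}) (J : Set (Set I)), IsRep kappa chi lam L J ∧ ∀ x, L x ∈ S

/-- the cardinals of cofinality `kappa` strictly between `mu` and `lam` at which `lam` is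
represented by a family of members of `S` -/
def XS (kappa mu lam : Cardinal.{u}) (S : Set Cardinal.{u}) : Set Cardinal.{u} :=
  {chi | mu < chi ∧ chi < lam ∧ chi.ord.cof = kappa ∧ RepIn kappa chi lam S}

theorem RepIn.mono {kappa chi lam : Cardinal.{u}} {S S' : Set Cardinal.{u}} (h : S ⊆ S')
    (hr : RepIn kappa chi lam S) : RepIn kappa chi lam S' := by
  obtain ⟨I, L, J, h1, h2⟩ := hr
  exact ⟨I, L, J, h1, fun x => h (h2 x)⟩

theorem XS_mono {kappa mu lam : Cardinal.{u}} {S S' : Set Cardinal.{u}} (h : S ⊆ S') :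
    XS kappa mu lam S ⊆ XS kappa mu lam S' := fun _ hx => ⟨hx.1, hx.2.1, hx.2.2.1, hx.2.2.2.mono h⟩

section

variable {I : Type u} {kappa lam : Cardinal.{u}} {L : I → Cardinal.{u}} {B : Set (Set I)}

theorem exists_chi2 (hC : Core kappa L B lam) {mu : Cardinal.{u}}
    (hloc : ∀ A : Set Cardinal.{u}, (∀ th, th ∈ A → InP kappa L B th ∧ th < lam) →
      (∀ (T : Type u) (f : T → Cardinal.{u}), #T ≤ kappa → (∀ t, f t ∈ A) →
        Covered kappa L B lam (Set.range f)) → Covered kappa L B lam A)
    (A : Set Cardinal.{u}) (hA : ∀ th, th ∈ A → InP kappa L B th ∧ mu < th ∧ th < lam)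
    (hnc : ¬ Covered kappa L B lam A) :
    ∃ chi : Cardinal.{u}, mu < chi ∧ chi < lam ∧ chi.ord.cof = kappa ∧ RepIn kappa chi lam A ∧
      (∀ c, c < chi → Covered kappa L B lam {th | th ∈ A ∧ th ≤ c}) ∧
      ¬ Covered kappa L B lam {th | th ∈ A ∧ th < chi} := by
  have hk := hC.reg.aleph0_le
  have hA' : ∀ th, th ∈ A → InP kappa L B th ∧ th < lam := fun th h => ⟨(hA th h).1, (hA th h).2.2⟩
  have hlam : lam.IsRegular := by
    obtain ⟨K, hK⟩ := hC.lamP
    exact hK.2.2.1
  have hkl := exchi_kappa_lt hC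
  set S : Set Cardinal.{u} := {c | ¬ Covered kappa L B lam {th | th ∈ A ∧ th < c}} with hS
  have hlS : lam ∈ S := by
    intro h
    apply hnc
    refine exchi_mono ?_ h
    intro th hth
    exact ⟨hth, (hA' th hth).2⟩
  have hSne : S.Nonempty := ⟨lam, hlS⟩
  set chi := sInf S with hchi
  have hchiS : chi ∈ S := csInf_mem hSne
  have hlow : ∀ c, c < chi → Covered kappa L B lam {th | th ∈ A ∧ th < c} := by
    intro c hc
    by_contra h
    exact absurd (csInf_le' (s := S) h) (not_le.mpr hc)
  have hlow' : ∀ c, c < chi → Covered kappa L B lam {th | th ∈ A ∧ th ≤ c} := fun c hc =>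
    exchi_le hC hA' (hlow c hc)
  have hchile : chi ≤ lam := csInf_le' hlS
  have hchilt : chi < lam := by
    refine lt_of_le_of_ne hchile ?_
    intro heq
    apply hnc
    apply hloc A hA'
    intro T f hT hf
    have hsup : (⨆ t, f t) < lam := by
      apply Cardinal.iSup_lt_of_lt_cof_ord
      · rw [hlam.cof_ord]
        exact hT.trans_lt hkl
      · intro t
        exact (hA' _ (hf t)).2
    rw [← heq] at hsup
    refine exchi_mono ?_ (hlow' _ hsup)
    rintro _ ⟨t, rfl⟩
    exact ⟨hf t, le_ciSup Cardinal.bddAbove_of_small t⟩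
  have hmu : mu < chi := by
    by_contra hcon
    rw [not_lt] at hcon
    apply hchiS
    refine exchi_mono ?_ (exchi_empty hC)
    rintro th ⟨h1, h2⟩
    exact absurd ((hA th h1).2.1.trans (h2.trans_le hcon)) (lt_irrefl _)
  refine ⟨chi, hmu, hchilt, ?_⟩
  -- the local witness
  have hex : ∃ (T : Type u) (f : T → Cardinal.{u}), #T ≤ kappa ∧
      (∀ t, f t ∈ {th | th ∈ A ∧ th < chi}) ∧ ¬ Covered kappa L B lam (Set.range f) := by
    by_contra hcon
    push Not at hcon
    apply hchiS
    apply hloc _ (fun th h => hA' th h.1)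
    intro T f hT hf
    exact hcon T f hT hf
  obtain ⟨T0, f0, hT0, hf0, hnc0⟩ := hex
  obtain ⟨T, f, hT, hf, hnc1, hinj⟩ : ∃ (T : Type u) (f : T → Cardinal.{u}), #T ≤ kappa ∧
      (∀ t, f t ∈ {th | th ∈ A ∧ th < chi}) ∧ ¬ Covered kappa L B lam (Set.range f) ∧
      Function.Injective f := by
    refine ⟨Quotient (Setoid.ker f0), Quotient.lift f0 (fun _ _ h => h), ?_, ?_, ?_, ?_⟩
    · exact (Cardinal.mk_quotient_le).trans hT0
    · intro t
      induction t using Quotient.inductionOn with
      | _ t => exact hf0 t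
    · have : Set.range (Quotient.lift f0 (fun _ _ h => h) :
          Quotient (Setoid.ker f0) → Cardinal.{u}) = Set.range f0 := by
        ext c
        constructor
        · rintro ⟨t, rfl⟩
          induction t using Quotient.inductionOn with
          | _ t => exact ⟨t, rfl⟩
        · rintro ⟨t, rfl⟩
          exact ⟨Quotient.mk _ t, rfl⟩
      rw [this]
      exact hnc0
    · intro a b hab
      induction a using Quotient.inductionOn with
      | _ a =>
      induction b using Quotient.inductionOn with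
      | _ b => exact Quotient.sound (s := Setoid.ker f0) hab
  have hbd : ∀ c, c < chi → ∀ X : Set T, (∀ x ∈ X, f x ≤ c) → Covered kappa L B lam (f '' X) := by
    intro c hc X hX
    refine exchi_mono ?_ (hlow' c hc)
    rintro _ ⟨t, ht, rfl⟩
    exact ⟨(hf t).1, hX t ht⟩
  have hub : ∀ c, c < chi → ∃ t, c < f t := by
    intro c hc
    by_contra hcon
    push Not at hcon
    apply hnc1
    rw [← Set.image_univ]
    exact hbd c hc _ (fun x _ => hcon x)
  have hTk : #T = kappa := by
    refine le_antisymm hT ?_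
    by_contra hcon
    rw [not_le] at hcon
    apply hnc1
    have h := covered_iUnion hC (fun t => {f t}) hcon (fun t =>
      covered_singleton hC (hA' _ (hf t).1).1 (hA' _ (hf t).1).2)
    refine exchi_mono ?_ h
    rintro _ ⟨t, rfl⟩
    exact mem_iUnion.mpr ⟨t, rfl⟩
  have hcof : chi.ord.cof = kappa := by
    apply le_antisymm
    · by_contra hcon
      rw [not_le, ← hTk] at hcon
      have hsup := Cardinal.iSup_lt_of_lt_cof_ord hcon (fun t => (hf t).2)
      obtain ⟨t, ht⟩ := hub _ hsup
      exact absurd (le_ciSup Cardinal.bddAbove_of_small t) (not_le.mpr ht)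
    · by_contra hcon
      rw [not_le] at hcon
      obtain ⟨s, hs, hs'⟩ := Order.exists_cof_eq (α := chi.ord.ToType)
      rw [Ordinal.cof_toType] at hs'
      rw [← hs'] at hcon
      apply hnc1
      have hbelow : ∀ j : s, ((ToType.toOrd j.1).1).card < chi := by
        intro j
        exact Cardinal.lt_ord.1 (ToType.toOrd j.1).2
      have h := covered_iUnion hC (T := s)
        (fun j => f '' {t | f t ≤ ((ToType.toOrd j.1).1).card}) hcon
        (fun j => hbd _ (hbelow j) _ (fun x hx => hx))
      refine exchi_mono ?_ h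
      rintro _ ⟨t, rfl⟩
      have h1 : (f t).ord < chi.ord := Cardinal.ord_lt_ord.2 (hf t).2
      obtain ⟨j, hj, hj'⟩ := hs (ToType.mk ⟨(f t).ord, h1⟩)
      refine mem_iUnion.mpr ⟨⟨j, hj⟩, t, ?_, rfl⟩
      show f t ≤ ((ToType.toOrd j).1).card
      have h2 : (f t).ord ≤ (ToType.toOrd j).1 := by
        have h3 := (ToType.mk.symm).monotone hj'
        have h4 : (ToType.mk.symm (ToType.mk ⟨(f t).ord, h1⟩) : Set.Iio chi.ord)
          = ⟨(f t).ord, h1⟩ := by simp
        rw [h4] at h3
        exact h3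
      have h5 := Ordinal.card_le_card h2
      rwa [Cardinal.card_ord] at h5
  obtain ⟨hI1, hI2⟩ := tcf_of_not_covered hC f hT (fun t => (hA' _ (hf t).1).1) hnc1
  refine ⟨hcof, ⟨T, f, {X : Set T | Covered kappa L B lam (f '' X)}, ⟨hTk, hinj, ?_, ?_, hub, hI1,
    ?_, hI2⟩, fun t => (hf t).1⟩, hlow', hchiS⟩
  · intro t
    obtain ⟨K, hK⟩ := (hA' _ (hf t).1).1
    exact hK.2.2.1
  · intro t
    exact (hf t).2
  · rintro X ⟨c, hc, hX⟩
    exact hbd c hc X hX

end

end Pool.Agent.PcfInc
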