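import Pool.Agent.Helper6.Pcf.Seq

/-!
Composition of true cofinalities: if `tau` has true cofinality `lam` modulo `JT` and almost
every `tau t` is the true cofinality of `c t` modulo `Jt t`, then `lam` is the true cofinality of
every family `L` which contains the `c t`, modulo the composed ideal.
-/

universe u

open Cardinal Ordinal Set Pool.Agent.Helper6.Pcf

namespace Pool.Agent.PcfInc

section

variable {I T : Type u} {A : T → Type u} {kappa lam : Cardinal.{u}}

/-- the composed ideal -/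
def CompI (M : Set T) (JT : Set (Set T)) (Jt : ∀ t, Set (Set (A t))) (e : ∀ t, A t → I) :
    Set (Set I) :=
  {X | {t | t ∈ M ∧ {i | e t i ∈ X} ∉ Jt t} ∈ JT}

theorem mem_CompI {M : Set T} {JT : Set (Set T)} {Jt : ∀ t, Set (Set (A t))} {e : ∀ t, A t → I}
    {X : Set I} :
    X ∈ CompI M JT Jt e ↔ {t | t ∈ M ∧ {i | e t i ∈ X} ∉ Jt t} ∈ JT := Iff.rfl

theorem CompI_ideal {M : Set T} {JT : Set (Set T)} {Jt : ∀ t, Set (Set (A t))}
    {e : ∀ t, A t → I} (hk : kappa.IsRegular) (hM : Mᶜ ∈ JT)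
    (hJT : IsKIdeal kappa JT) (hJt : ∀ t, t ∈ M → IsKIdeal kappa (Jt t)) :
    IsKIdeal kappa (CompI M JT Jt e) := by
  refine ⟨?_, ?_, ?_⟩
  · intro h
    apply hJT.univ_notMem
    rw [mem_CompI] at h
    refine hJT.down _ _ ?_ (hJT.isKI.union hk.aleph0_le h hM)
    intro t _
    by_cases ht : t ∈ M
    · exact Or.inl ⟨ht, (hJt t ht).univ_notMem⟩
    · exact Or.inr ht
  · intro X Y hXY hY
    refine hJT.down _ _ ?_ hY
    rintro t ⟨ht0, ht⟩
    exact ⟨ht0, fun h => ht ((hJt t ht0).down _ _ (fun i hi => hXY hi) h)⟩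
  · intro S hS hc
    have h1 : (⋃ X : S, {t | t ∈ M ∧ {i | e t i ∈ X.1} ∉ Jt t}) ∈ JT :=
      hJT.isKI.iUnion _ hc (fun X => hS X.2)
    refine hJT.down _ _ ?_ h1
    rintro t ⟨ht0, ht⟩
    by_contra hcon
    apply ht
    have h2 : (⋃ X : S, {i | e t i ∈ X.1}) ∈ Jt t := by
      refine (hJt t ht0).isKI.iUnion _ hc fun X => ?_
      by_contra h3
      exact hcon (Set.mem_iUnion.2 ⟨X, ht0, h3⟩)
    refine (hJt t ht0).down _ _ ?_ h2
    rintro i ⟨X, hX, hi⟩
    exact Set.mem_iUnion.2 ⟨⟨X, hX⟩, hi⟩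

theorem CompI_tcf (hk : kappa.IsRegular) (hT : #T ≤ kappa) (hA : ∀ t, #(A t) ≤ kappa)
    (L : I → Cardinal.{u}) (hreg : ∀ x, (L x).IsRegular)
    (tau : T → Cardinal.{u}) (htau : ∀ t, (tau t).IsRegular)
    (M : Set T) (JT : Set (Set T)) (hM : Mᶜ ∈ JT) (hJT : IsKIdeal kappa JT)
    (hTT : TCF tau JT lam) (c : ∀ t, A t → Cardinal.{u}) (Jt : ∀ t, Set (Set (A t)))
    (hJt : ∀ t, t ∈ M → IsKIdeal kappa (Jt t)) (hTc : ∀ t, t ∈ M → TCF (c t) (Jt t) (tau t))
    (e : ∀ t, A t → I)
    (he : ∀ t, t ∈ M → {i | ¬ (L (e t i) = c t i ∧ kappa < c t i)} ∈ Jt t) :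
    TCF L (CompI M JT Jt e) lam := by
  classical
  have hinf := hk.aleph0_le
  have hK := CompI_ideal (e := e) hk hM hJT hJt
  have hf : ∀ t, ∃ f : Ordinal.{u} → A t → Ordinal.{u}, t ∈ M →
      (∀ a, a < (tau t).ord → InProd (c t) (f a)) ∧
      (∀ a b, a < b → b < (tau t).ord → LtMod (Jt t) (f a) (f b)) ∧
      ∀ g, InProd (c t) g → ∃ a, a < (tau t).ord ∧ LtMod (Jt t) g (f a) := by
    intro t
    by_cases ht : t ∈ M
    · obtain ⟨_, f, h⟩ := hTc t ht
      exact ⟨f, fun _ => h⟩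
    · exact ⟨fun _ _ => 0, fun h => absurd h ht⟩
  choose f hf using hf
  have hcpos : ∀ t, t ∈ M → ∀ i, 0 < (c t i).ord := by
    intro t ht i
    exact lt_of_le_of_lt zero_le ((hf t ht).1 0 (htau t).ord_pos i)
  let P (x : I) : Type u :=
    {p : Σ t, A t // p.1 ∈ M ∧ e p.1 p.2 = x ∧ L (e p.1 p.2) = c p.1 p.2 ∧ kappa < c p.1 p.2}
  have hP : ∀ x, #(P x) < L x := by
    intro x
    by_cases hx : Nonempty (P x)
    · obtain ⟨⟨⟨t, i⟩, h1, h2, h3, h4⟩⟩ := hx
      have hxk : kappa < L x := by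
        rw [← h2]
        exact lt_of_lt_of_eq h4 h3.symm
      refine lt_of_le_of_lt ?_ hxk
      refine (Cardinal.mk_subtype_le _).trans ?_
      rw [Cardinal.mk_sigma]
      refine (Cardinal.sum_le_mk_mul_iSup _).trans ?_
      refine (mul_le_mul' hT (ciSup_le' hA)).trans ?_
      exact (Cardinal.mul_eq_self hinf).le
    · rw [not_nonempty_iff] at hx
      rw [Cardinal.mk_eq_zero]
      exact lt_of_lt_of_le aleph0_pos (hreg x).aleph0_le
  let G : (T → Ordinal.{u}) → I → Ordinal.{u} := fun g x =>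
    ⨆ p : P x, f p.1.1 (g p.1.1) p.1.2
  have hG : ∀ g, InProd tau g → InProd L (G g) := by
    intro g hg x
    apply Ordinal.iSup_lt_of_lt_cof
    · rw [(hreg x).cof_ord]; exact hP x
    · rintro ⟨⟨t, i⟩, h0, h1, h2, h3⟩
      have h4 := (hf t h0).1 (g t) (hg t) i
      show f t (g t) i < (L x).ord
      rw [← h1]
      rw [h2]
      exact h4
  have hpos : ∀ h, InProd L h → ∀ t, ∃ a, a < (tau t).ord ∧
      (t ∈ M → {i | f t a i ≤ h (e t i)} ∈ Jt t) := by
    intro h hh t
    by_cases ht : t ∈ M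
    · obtain ⟨a, ha, hlt⟩ := (hf t ht).2.2 (fun i => if L (e t i) = c t i then h (e t i) else 0)
        (by
        intro i
        by_cases h1 : L (e t i) = c t i
        · simp only [h1, if_true]
          rw [← h1]; exact hh _
        · simp only [h1, if_false]
          exact hcpos t ht i)
      refine ⟨a, ha, fun _ => (hJt t ht).down _ _ ?_ ((hJt t ht).isKI.union hinf hlt (he t ht))⟩
      intro i hi
      by_cases h1 : L (e t i) = c t i
      · left
        show f t a i ≤ _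
        simp only [h1, if_true]
        exact hi
      · right
        exact fun h2 => h1 h2.1
    · exact ⟨0, (htau t).ord_pos, fun h => absurd h ht⟩
  choose! g hg1 hg2 using hpos
  have hg1' : ∀ h, InProd L h → InProd tau (g h) := fun h hh t => hg1 h hh t
  have hdom : ∀ h, InProd L h → ∀ g', InProd tau g' → LeMod JT (g h) g' →
      LeMod (CompI M JT Jt e) h (G g') := by
    intro h hh g' hg' hle
    show {x | G g' x < h x} ∈ CompI M JT Jt e
    rw [mem_CompI]
    refine hJT.down _ _ ?_ hle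
    rintro t ⟨ht0, ht⟩
    by_contra hcon
    have hle' : g h t ≤ g' t := not_lt.1 hcon
    apply ht
    have hI := hJt t ht0
    have h1 : {i | f t (g' t) i < f t (g h t) i} ∈ Jt t := by
      rcases hle'.lt_or_eq with h2 | h2
      · exact LtMod.leMod hI.isKI ((hf t ht0).2.1 _ _ h2 (hg' t))
      · rw [h2]
        exact LeMod.refl hI.isKI hinf _
    refine hI.down _ _ ?_ (hI.isKI.union hinf
      (hI.isKI.union hinf h1 (hg2 h hh t ht0)) (he t ht0))
    intro i hi
    have hi' : G g' (e t i) < h (e t i) := hi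
    by_cases h3 : L (e t i) = c t i ∧ kappa < c t i
    · left
      have h4 : f t (g' t) i ≤ G g' (e t i) :=
        Ordinal.le_iSup (fun p : P (e t i) => f p.1.1 (g' p.1.1) p.1.2) ⟨⟨t, i⟩, ht0, rfl, h3⟩
      by_cases h5 : f t (g h t) i ≤ f t (g' t) i
      · right
        show f t (g h t) i ≤ h (e t i)
        exact (h5.trans h4).trans hi'.le
      · left; exact not_le.1 h5
    · right; exact h3
  have hlam : lam.IsRegular := hTT.1
  have hdirT := hTT.dir hJT.isKI hinf
  have hdir : Dir L (CompI M JT Jt e) lam := by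
    intro D p hD hp
    obtain ⟨g', hg', hle⟩ := hdirT D (fun d => g (p d)) hD (fun d => hg1' _ (hp d))
    exact ⟨G g', hG g' hg', fun d => hdom _ (hp d) g' hg' (hle d)⟩
  obtain ⟨_, F, hF1, hF2, hF3⟩ := hTT
  refine TCF.of_dir_cof hK.isKI hinf hreg hlam hdir
    (fun i : lam.ord.ToType => G (F (ToType.toOrd i).1))
    (fun i => hG _ (hF1 _ (ToType.toOrd i).2)) id Function.injective_id ?_
  intro h hh
  obtain ⟨a, ha, hlt⟩ := hF3 (g h) (hg1' h hh)
  refine ⟨ToType.mk ⟨a, ha⟩, ?_⟩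
  have h1 := hdom h hh (F a) (hF1 a ha) (LtMod.leMod hJT.isKI hlt)
  simpa using h1

/-- the constant family -/
theorem TCF_const (hk : kappa.IsRegular) (hlam : lam.IsRegular) (hT : #T < lam)
    {JT : Set (Set T)} (hJT : IsKIdeal kappa JT) : TCF (fun _ : T => lam) JT lam := by
  refine ⟨hlam, fun a _ => a, fun a ha _ => ha, fun a b hab _ => ?_, fun g hg => ?_⟩
  · have : {t : T | b ≤ a} = (∅ : Set T) := by
      ext t
      simp [hab]
    show {t : T | b ≤ a} ∈ JT
    rw [this]
    exact hJT.isKI.empty hk.aleph0_le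
  · have h1 : (⨆ t, g t) < lam.ord := by
      apply Ordinal.iSup_lt_of_lt_cof
      · rw [hlam.cof_ord]; exact hT
      · exact hg
    refine ⟨(⨆ t, g t) + 1, lt_add_one_ord hlam h1, ?_⟩
    have : {t : T | (⨆ t, g t) + 1 ≤ g t} = (∅ : Set T) := by
      ext t
      simp only [Set.mem_ofPred_eq, Set.mem_empty_iff_false, iff_false, not_le]
      exact Order.lt_add_one_iff.2 (Ordinal.le_iSup g t)
    show {t : T | (⨆ t, g t) + 1 ≤ g t} ∈ JT
    rw [this]
    exact hJT.isKI.empty hk.aleph0_le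

/-- the family modulo a principal ideal -/
theorem TCF_point (tau : T → Cardinal.{u}) (htau : ∀ t, (tau t).IsRegular) (d : T) :
    TCF tau {Y : Set T | d ∉ Y} (tau d) := by
  classical
  refine ⟨htau d, fun a t => if t = d then a else 0, fun a ha t => ?_, fun a b hab hb => ?_,
    fun g hg => ?_⟩
  · by_cases h : t = d
    · subst h
      simp only [if_true]
      exact ha
    · simp only [h, if_false]
      exact (htau t).ord_pos
  · show d ∉ {t | (if t = d then b else 0) ≤ (if t = d then a else 0)}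
    simp only [Set.mem_ofPred_eq, if_true, not_le]
    exact hab
  · refine ⟨g d + 1, lt_add_one_ord (htau d) (hg d), ?_⟩
    show d ∉ {t | (if t = d then g d + 1 else 0) ≤ g t}
    simp only [Set.mem_ofPred_eq, if_true, not_le]
    exact Order.lt_add_one_iff.2 le_rfl

theorem point_ideal (hk : kappa.IsRegular) (d : T) : IsKIdeal kappa {Y : Set T | d ∉ Y} := by
  refine ⟨fun h => h (Set.mem_univ d), fun X Y hXY hY h => hY (hXY h), fun S hS _ h => ?_⟩
  obtain ⟨X, hX, hd⟩ := h
  exact hS hX hd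

end

end Pool.Agent.PcfInc
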