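import Pool.Agent.PcfInc.GenB

/-!
The least ideal for `lam` is compact: a family of its members each of whose subfamilies of size
at most kappa has a common bound, modulo the base ideal, has a common bound.
-/

universe u

open Cardinal Ordinal Set Pool.Agent.Helper6.Pcf

namespace Pool.Agent.PcfInc

section

variable {I : Type u} {kappa lam : Cardinal.{u}} {L : I → Cardinal.{u}} {B : Set (Set I)}

theorem compact_bdd (hC : Core kappa L B lam)
    (hmax : ∀ K : Set (Set I), IsKIdeal kappa K → B ⊆ K → ¬ Dir L K (Order.succ lam))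
    (W : Set (Set I))
    (hW : ∀ W' : Set (Set I), W' ⊆ W → #W' ≤ kappa →
      ∃ z ∈ Jst kappa L B lam, ∀ w ∈ W', w \ z ∈ B) :
    ∃ E ∈ Jst kappa L B lam, ∀ w ∈ W, w \ E ∈ B := by
  classical
  have hinf := hC.reg.aleph0_le
  have hsmall := hC.small
  have hJ := Jst_adm hinf hC.Lreg hsmall hC.lamP
  have hWJ : ∀ w ∈ W, w ∈ Jst kappa L B lam := by
    intro w hw
    obtain ⟨z, hz, h1⟩ := hW {w} (Set.singleton_subset_iff.2 hw) (by
      rw [Cardinal.mk_singleton]
      exact (Cardinal.one_lt_aleph0.trans_le hinf).le)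
    refine hJ.1.down _ _ ?_ (hJ.1.isKI.union hinf hz (hJ.2.1 (h1 w rfl)))
    intro x hx
    by_cases h2 : x ∈ z
    · exact Or.inl h2
    · exact Or.inr ⟨hx, h2⟩
  let A : Set Cardinal.{u} := {th | th < lam ∧ ∃ w ∈ W, ∃ K, Adm kappa L B th K ∧ wᶜ ∈ K}
  have hA : ∀ th, th ∈ A → InP kappa L B th ∧ th < lam := by
    rintro th ⟨h1, w, _, K, hK, _⟩
    exact ⟨⟨K, hK⟩, h1⟩
  have hcov : Covered kappa L B lam A := by
    refine localization hC hmax A hA ?_
    intro T f hT hf
    by_contra hnc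
    obtain ⟨hI1, hI2⟩ := tcf_of_not_covered hC f hT (fun t => (hA _ (hf t)).1) hnc
    choose hlt w hw K hK hwK using hf
    obtain ⟨z, hz, hwz⟩ := hW (Set.range w) (by rintro _ ⟨t, rfl⟩; exact hw t)
      (Cardinal.mk_range_le.trans hT)
    have hM : (Set.univ : Set T)ᶜ ∈ {X : Set T | Covered kappa L B lam (f '' X)} := by
      rw [Set.compl_univ]
      exact hI1.isKI.empty hinf
    have hid := CompI_ideal (M := Set.univ) (Jt := K) (e := fun (_ : T) (i : I) => i) hC.reg hM hI1
      (fun t _ => (hK t).1)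
    have htcf := CompI_tcf hC.reg hT (fun _ => hC.card) L hC.Lreg f (fun t => (hK t).2.2.1)
      Set.univ {X : Set T | Covered kappa L B lam (f '' X)} hM hI1 hI2 (fun _ => L) K
      (fun t _ => (hK t).1) (fun t _ => (hK t).2.2) (fun _ i => i) (fun t _ => by
        have : {i : I | ¬ (L i = L i ∧ kappa < L i)} = (∅ : Set I) := by
          ext i
          simp only [Set.mem_ofPred_eq, true_and, Set.mem_empty_iff_false, iff_false, not_not]
          exact (Cardinal.cantor kappa).trans (hC.Lbig i)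
        rw [this]
        exact (hK t).1.isKI.empty hinf)
    have hall : ∀ X : Set I, (∀ t, X ∈ K t) →
        X ∈ CompI Set.univ {X : Set T | Covered kappa L B lam (f '' X)} K (fun _ i => i) := by
      intro X hX
      rw [mem_CompI]
      have : {t : T | t ∈ (Set.univ : Set T) ∧ {i : I | i ∈ X} ∉ K t} = (∅ : Set T) := by
        ext t
        simp only [Set.mem_ofPred_eq, Set.mem_univ, true_and, Set.mem_empty_iff_false, iff_false,
          not_not]
        exact hX t
      rw [this]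
      exact hI1.isKI.empty hinf
    have hadm : Adm kappa L B lam
        (CompI Set.univ {X : Set T | Covered kappa L B lam (f '' X)} K (fun _ i => i)) :=
      ⟨hid, fun X hX => hall X (fun t => (hK t).2.1 hX), htcf⟩
    have h1 := hz _ hadm
    have h2 := hall zᶜ (fun t => (hK t).1.down _ _ (fun x (hx : x ∉ z) => by
      by_cases h3 : x ∈ w t
      · exact Or.inl ⟨h3, hx⟩
      · exact Or.inr h3) ((hK t).1.isKI.union hinf ((hK t).2.1 (hwz _ ⟨t, rfl⟩)) (hwK t)))
    have h3 := hid.isKI.union hinf h1 h2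
    rw [Set.union_compl_self] at h3
    exact hid.univ_notMem h3
  obtain ⟨E, hE, hE2⟩ := hcov
  refine ⟨E, hE, fun w hw => ?_⟩
  by_contra hcon
  have hKx := Tr_isKI hC.base (w \ E)
  have hKxp : IsKIdeal kappa (Tr B (w \ E)) := by
    refine ⟨fun h => hcon ?_, hKx.down, hKx.sUnion⟩
    have h1 : Set.univ ∩ (w \ E) ∈ B := h
    rwa [Set.univ_inter] at h1
  have hnd := hmax _ hKxp (Tr_sub hC.base _)
  obtain ⟨sg, b, hs1, hs2, hs3, hs4, hs5, hs6⟩ :=
    exists_tcf_trace hinf hKx hC.Lreg hsmall hnd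
  have hadm : Adm kappa L B sg (Tr (Tr B (w \ E)) b) :=
    ⟨hs5, (Tr_sub hC.base _).trans (Tr_sub hKx b), hs6⟩
  have hxc : (w \ E)ᶜ ∈ Tr (Tr B (w \ E)) b := by
    show ((w \ E)ᶜ ∩ b) ∩ (w \ E) ∈ B
    refine hC.base.down _ _ ?_ (hC.base.empty hinf)
    rintro y ⟨⟨h1, _⟩, h2⟩
    exact absurd h2 h1
  have hle : sg ≤ lam := by
    by_contra hcon
    exact hnd (hs2.anti (Order.succ_le_of_lt (not_le.1 hcon)))
  rcases hle.lt_or_eq with h1 | h1
  · have h2 : sg ∈ A := by
      refine ⟨h1, w, hw, _, hadm, hs5.down _ _ ?_ hxc⟩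
      intro x (hx : x ∉ w) h3
      exact hx h3.1
    have h3 : Eᶜ ∈ Tr (Tr B (w \ E)) b := hE2 sg h2 _ hadm
    apply hs5.univ_notMem
    refine hs5.down _ _ ?_ (hs5.isKI.union hinf hxc h3)
    intro x _
    by_cases h4 : x ∈ w \ E
    · exact Or.inr h4.2
    · exact Or.inl h4
  · subst h1
    have h3 : w ∈ Tr (Tr B (w \ E)) b := hWJ w hw _ hadm
    apply hs5.univ_notMem
    refine hs5.down _ _ ?_ (hs5.isKI.union hinf hxc h3)
    intro x _
    by_cases h4 : x ∈ w \ E
    · exact Or.inr h4.1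
    · exact Or.inl h4

end

end Pool.Agent.PcfInc
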