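import Pool.Agent.PcfInc.Pos

/-!
A representing family can be thinned out to one of order type kappa.
-/

universe u

open Cardinal Ordinal Set Pool.Agent.Helper6.Pcf

namespace Pool.Agent.PcfInc

section

variable {kappa mu lam : Cardinal.{u}}

theorem small_KI (hk : kappa.IsRegular) (I : Type u) : IsKI kappa {X : Set I | #X < kappa} := by
  refine ⟨fun X Y hXY hY => lt_of_le_of_lt (Cardinal.mk_le_mk_of_subset hXY) hY,
    fun S hS hc => ?_⟩
  show #(⋃₀ S : Set I) < kappa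
  rw [Set.sUnion_eq_iUnion]
  exact (Cardinal.card_iUnion_lt_iff_forall_of_isRegular hk hc).2 (fun X => hS X.2)

theorem exists_inc (hk : kappa.IsRegular) (hcof : mu.ord.cof = kappa)
    (hbig : (2 : Cardinal.{u}) ^ kappa < mu) {I0 : Type u} (L0 : I0 → Cardinal.{u})
    (J0 : Set (Set I0)) (hrep : IsRep kappa mu lam L0 J0) :
    ∃ (s : kappa.ord.ToType → Cardinal.{u}) (J : Set (Set kappa.ord.ToType)), StrictMono s ∧
      (∀ i, (∃ x, L0 x = s i) ∧ (2 : Cardinal.{u}) ^ kappa < s i) ∧ IsLUB (Set.range s) mu ∧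
      IsKIdeal kappa J ∧ Jbd kappa.ord.ToType ⊆ J ∧ TCF s J lam := by
  classical
  have hinf := hk.aleph0_le
  obtain ⟨hI0, hinj0, hreg0, hlt0, hub0, hJ0, hbd0, hT0⟩ := hrep
  -- first restriction
  set G0 : Set I0 := {x | (2 : Cardinal.{u}) ^ kappa < L0 x} with hG0
  have hG0c : G0ᶜ ∈ J0 := hbd0 _ ⟨2 ^ kappa, hbig, fun x hx => not_lt.1 hx⟩
  have hG0J : G0 ∉ J0 := by
    intro h
    have h1 := hJ0.isKI.union hinf h hG0c
    rw [Set.union_compl_self] at h1
    exact hJ0.univ_notMem h1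
  let L : G0 → Cardinal.{u} := fun x => L0 x
  let J : Set (Set G0) := {X | Subtype.val '' X ∈ J0}
  have hJ : IsKIdeal kappa J := restrict_ideal hJ0 hG0J
  have hT : TCF L J lam := restrict_tcf hJ0 hreg0 hT0 G0
  have hreg : ∀ x, (L x).IsRegular := fun x => hreg0 x
  have hLbig : ∀ x, (2 : Cardinal.{u}) ^ kappa < L x := fun x => x.2
  have hLlt : ∀ x, L x < mu := fun x => hlt0 x
  set B0 : Set (Set G0) := {X | #X < kappa} with hB0
  have hB0KI : IsKI kappa B0 := small_KI hk _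
  have hB0J : B0 ⊆ J := by
    intro X hX
    have hX' : #X < kappa := hX
    apply hbd0
    have hs : (⨆ x : X, L x.1) < mu := by
      apply Cardinal.iSup_lt_of_lt_cof_ord
      · rw [hcof]; exact hX'
      · intro x; exact hLlt x.1
    refine ⟨_, hs, ?_⟩
    rintro _ ⟨x, hx, rfl⟩
    exact le_ciSup (f := fun x : X => L x.1) Cardinal.bddAbove_of_small ⟨x, hx⟩
  have hcardI : #G0 = kappa := by
    refine le_antisymm ((Cardinal.mk_set_le _).trans hI0.le) ?_
    by_contra hcon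
    rw [not_le] at hcon
    apply hJ.univ_notMem
    apply hB0J
    show #(Set.univ : Set G0) < kappa
    rw [Cardinal.mk_univ]; exact hcon
  have hsmall : ∀ x, #(Set G0) < L x := by
    intro x
    refine lt_of_le_of_lt ?_ (hLbig x)
    rw [Cardinal.mk_set, hcardI]
  have hInP0 : InP kappa L B0 lam := ⟨J, hJ, hB0J, hT⟩
  have hadm0 := Jst_adm hinf hreg hsmall hInP0
  obtain ⟨b, hb1, hb2⟩ := exists_gen hinf hreg hsmall hInP0
  have hbJ : bᶜ ∈ J := hb1 _ ⟨hJ, hB0J, hT⟩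
  set B : Set (Set G0) := Tr B0 b with hB
  have hBKI : IsKI kappa B := Tr_isKI hB0KI b
  have hB0B : B0 ⊆ B := Tr_sub hB0KI b
  have hbc : bᶜ ∈ B := by
    show bᶜ ∩ b ∈ B0
    rw [Set.compl_inter_self]; exact hB0KI.empty hinf
  have hBJ : B ⊆ J := by
    intro X hX
    refine hJ.down _ _ ?_ (hJ.isKI.union hinf (hB0J hX) hbJ)
    intro y hy
    by_cases h : y ∈ b
    · exact Or.inl ⟨hy, h⟩
    · exact Or.inr h
  have hAdmJ : Adm kappa L B lam J := ⟨hJ, hBJ, hT⟩
  have hC : Core kappa L B lam := ⟨hk, hcardI.le, hreg, hLbig, hBKI, ⟨J, hAdmJ⟩⟩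
  have hmax : ∀ K : Set (Set G0), IsKIdeal kappa K → B ⊆ K → ¬ Dir L K (Order.succ lam) := by
    intro K hK hBK hd
    have h1 := hb2 K hK.isKI (hB0B.trans hBK) hd
    have h2 := hK.isKI.union hinf h1 (hBK hbc)
    rw [Set.union_compl_self] at h2
    exact hK.univ_notMem h2
  obtain ⟨φ, hφ1, hφ2⟩ := brepOf_cofinal hcof
  let V : kappa.ord.ToType → Set G0 := fun i => {x | L x ≤ φ i}
  have hVJ : ∀ i, V i ∈ J := by
    intro i
    apply hbd0
    refine ⟨φ i, hφ1 i, ?_⟩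
    rintro _ ⟨x, hx, rfl⟩
    exact hx
  have hps : ∀ E ∈ Jst kappa L B lam, ∃ x : Set G0, x ∉ B ∧ x ∩ E ∈ B ∧ ∀ i, x ∩ V i ∈ B := by
    intro E hE
    have hEJ : E ∈ J := hE _ hAdmJ
    set A : Set (Set G0) := insert Eᶜ (insert b (Set.range fun i => (V i)ᶜ)) with hA
    have hAcard : #A ≤ kappa := by
      refine mk_insert_le.trans ((add_le_add (mk_insert_le.trans (add_le_add
        (Cardinal.mk_range_le.trans (mk_ord_toType kappa).le) le_rfl)) le_rfl).trans ?_)
      rw [Cardinal.add_one_eq hinf, Cardinal.add_one_eq hinf]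
    have hAc : ∀ a ∈ A, aᶜ ∈ J := by
      rintro a (ha | ha | ⟨i, rfl⟩)
      · rw [ha, compl_compl]; exact hEJ
      · rw [ha]; exact hbJ
      · show (V i)ᶜᶜ ∈ J
        rw [compl_compl]; exact hVJ i
    obtain ⟨x, hx1, hx2⟩ := PInt_self hk G0 hcardI A hAcard (by
      intro S hSA hScard
      by_contra hcon
      rw [not_le] at hcon
      have h1 : ⋂₀ S ∈ J := hB0J hcon
      have h2 := hJ.isKI.iUnion (T := S) (fun a => a.1ᶜ) hScard (fun a => hAc a.1 (hSA a.2))
      have h3 := hJ.isKI.union hinf h1 h2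
      apply hJ.univ_notMem
      refine hJ.down _ _ ?_ h3
      intro y _
      by_cases h : y ∈ ⋂₀ S
      · exact Or.inl h
      · right
        rw [Set.mem_sInter] at h
        push Not at h
        obtain ⟨a, ha, hy⟩ := h
        exact Set.mem_iUnion.2 ⟨⟨a, ha⟩, hy⟩)
    refine ⟨x, ?_, ?_, ?_⟩
    · intro hxB
      have h1 : #(x ∩ b : Set G0) < kappa := hxB
      have h2 : #(x \ b : Set G0) < kappa := hx2 b (Or.inr (Or.inl rfl))
      have h3 : x ⊆ (x ∩ b) ∪ (x \ b) := by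
        intro y hy
        by_cases h : y ∈ b
        · exact Or.inl ⟨hy, h⟩
        · exact Or.inr ⟨hy, h⟩
      have h4 := (Cardinal.mk_le_mk_of_subset h3).trans (Cardinal.mk_union_le _ _)
      rw [hx1] at h4
      exact absurd (Cardinal.add_lt_of_lt hinf h1 h2) (not_lt.2 h4)
    · have h1 : #(x \ Eᶜ : Set G0) < kappa := hx2 Eᶜ (Or.inl rfl)
      apply hB0B
      refine lt_of_le_of_lt (Cardinal.mk_le_mk_of_subset ?_) h1
      rintro y ⟨h2, h3⟩
      exact ⟨h2, fun h => h h3⟩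
    · intro i
      have h1 : #(x \ (V i)ᶜ : Set G0) < kappa := hx2 _ (Or.inr (Or.inr ⟨i, rfl⟩))
      apply hB0B
      refine lt_of_le_of_lt (Cardinal.mk_le_mk_of_subset ?_) h1
      rintro y ⟨h2, h3⟩
      exact ⟨h2, fun h => h h3⟩
  obtain ⟨x, hx1, hx2⟩ := exists_pos hC hmax V hps
  obtain ⟨K, hK, hxK⟩ : ∃ K, Adm kappa L B lam K ∧ x ∉ K := by
    by_contra hcon
    push Not at hcon
    exact hx1 hcon
  have hGK : x ∩ b ∉ K := by
    intro h
    apply hxK
    refine hK.1.down _ _ ?_ (hK.1.isKI.union hinf h (hK.2.1 hbc))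
    intro y hy
    by_cases h : y ∈ b
    · exact Or.inl ⟨hy, h⟩
    · exact Or.inr h
  -- second restriction
  let L1 : (x ∩ b : Set G0) → Cardinal.{u} := fun y => L y
  let K1 : Set (Set (x ∩ b : Set G0)) := {X | Subtype.val '' X ∈ K}
  have hK1 : IsKIdeal kappa K1 := restrict_ideal hK.1 hGK
  have hT1 : TCF L1 K1 lam := restrict_tcf hK.1 hreg hK.2.2 _
  have hsm : ∀ c, c < mu → #{y | L1 y ≤ c} < kappa := by
    intro c hc
    obtain ⟨i, hi⟩ := hφ2 c hc
    have h1 : #((x ∩ V i) ∩ b : Set G0) < kappa := hx2 i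
    refine lt_of_le_of_lt ?_ h1
    refine Cardinal.mk_le_of_injective
      (f := fun y : {y | L1 y ≤ c} => (⟨y.1.1, ⟨y.1.2.1, (show L1 y.1 ≤ φ i from
        (show L1 y.1 ≤ c from y.2).trans hi)⟩, y.1.2.2⟩ : ((x ∩ V i) ∩ b : Set G0))) ?_
    intro a a' haa
    have h3 : (a.1.1 : G0) = a'.1.1 :=
      congrArg (fun z : ((x ∩ V i) ∩ b : Set G0) => (z : G0)) haa
    apply Subtype.ext
    exact Subtype.ext h3
  have hK1small : ∀ X : Set (x ∩ b : Set G0), #X < kappa → X ∈ K1 := by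
    intro X hX
    apply hK.2.1
    apply hB0B
    exact lt_of_le_of_lt Cardinal.mk_image_le hX
  have hub1 : ∀ c, c < mu → ∃ y, c < L1 y := by
    intro c hc
    by_contra hcon
    push Not at hcon
    apply hK1.univ_notMem
    apply hK1small
    refine lt_of_le_of_lt (Cardinal.mk_le_mk_of_subset ?_) (hsm c hc)
    intro y _
    exact hcon y
  obtain ⟨s, hs1, hs2, hs3⟩ := exists_enum hcof L1 (fun y => hLlt y) hub1 hsm
  choose e he using hs3
  have hsreg : ∀ i, (s i).IsRegular := by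
    intro i
    obtain ⟨y, hy⟩ := hs2 i
    rw [← hy]; exact hreg y
  have hlub : IsLUB (Set.range s) mu := by
    refine ⟨?_, ?_⟩
    · rintro _ ⟨i, rfl⟩
      obtain ⟨y, hy⟩ := hs2 i
      rw [← hy]
      exact (hLlt y).le
    · intro c hc
      by_contra hcon
      rw [not_le] at hcon
      obtain ⟨y, hy⟩ := hub1 c hcon
      have h1 : s (e y) ≤ c := hc ⟨e y, rfl⟩
      rw [he] at h1
      exact absurd hy (not_lt.2 h1)
  have hlam : lam.IsRegular := hT.1
  have hpt : IsKIdeal kappa {Y : Set PUnit.{u + 1} | PUnit.unit ∉ Y} := point_ideal hk _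
  have hTp : TCF (fun _ : PUnit.{u + 1} => lam) {Y : Set PUnit.{u + 1} | PUnit.unit ∉ Y} lam :=
    TCF_point (fun _ => lam) (fun _ => hlam) PUnit.unit
  have hMp : (Set.univ : Set PUnit.{u + 1})ᶜ ∈ {Y : Set PUnit.{u + 1} | PUnit.unit ∉ Y} := by
    rw [Set.compl_univ]; exact Set.notMem_empty _
  have hunit : #(PUnit.{u + 1}) ≤ kappa := by
    rw [Cardinal.mk_punit]
    exact Cardinal.one_le_aleph0.trans hinf
  have hG1card : #(x ∩ b : Set G0) ≤ kappa := (Cardinal.mk_set_le _).trans hcardI.le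
  have hen : {y | ¬ (s (e y) = L1 y ∧ kappa < L1 y)} ∈ K1 := by
    have : {y | ¬ (s (e y) = L1 y ∧ kappa < L1 y)} = (∅ : Set (x ∩ b : Set G0)) := by
      ext y
      simp only [Set.mem_ofPred_eq, Set.mem_empty_iff_false, iff_false, not_not]
      exact ⟨he y, (Cardinal.cantor kappa).trans (hLbig y)⟩
    rw [this]
    exact hK1.isKI.empty hinf
  refine ⟨s, CompI (Set.univ : Set PUnit.{u + 1}) {Y | PUnit.unit ∉ Y} (fun _ => K1)
    (fun _ => e), hs1, fun i => ?_, hlub, CompI_ideal hk hMp hpt (fun _ _ => hK1), ?_,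
    CompI_tcf hk hunit (fun _ => hG1card) s hsreg (fun _ => lam) (fun _ => hlam) Set.univ _ hMp hpt
      hTp (fun _ => L1) (fun _ => K1) (fun _ _ => hK1) (fun _ _ => hT1) (fun _ => e)
      (fun _ _ => hen)⟩
  · obtain ⟨y, hy⟩ := hs2 i
    exact ⟨⟨y.1.1, hy⟩, by rw [← hy]; exact hLbig y⟩
  · rintro X ⟨c, hc⟩
    rw [mem_CompI]
    show PUnit.unit ∉ _
    rintro ⟨-, h⟩
    apply h
    apply hK1small
    refine lt_of_le_of_lt (Cardinal.mk_le_mk_of_subset ?_) (hsm (s c) (lub_lt hk hs1 hlub c))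
    intro y hy
    show L1 y ≤ s c
    rw [← he]
    exact hs1.monotone (hc _ hy)

end

end Pool.Agent.PcfInc
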