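import Pool.Agent.PcfInc.Trans

/-!
Countable case: if every sequence of members of the spectrum accumulates at a member of the
spectrum below `lam`, then the spectrum below `lam` is covered by one set.
-/

universe u

open Cardinal Ordinal Set Pool.Agent.Helper6.Pcf

namespace Pool.Agent.PcfInc

section

variable {I : Type u} {kappa lam : Cardinal.{u}} {L : I → Cardinal.{u}} {B : Set (Set I)}

/-- the position of an element of the countable order -/
theorem exists_pos_nat (hω : kappa = ℵ₀) :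
    ∃ r : kappa.ord.ToType → ℕ, (∀ m, {i | r i < m} ∈ Jbd kappa.ord.ToType) ∧
      ∀ m, ∃ i, r i = m := by
  subst hω
  have h1 : ∀ i : (ℵ₀ : Cardinal.{u}).ord.ToType, ∃ n : ℕ, (ToType.toOrd i).1 = n := by
    intro i
    have h2 : (ToType.toOrd i).1 < Ordinal.omega0 :=
      lt_of_lt_of_eq (ToType.toOrd i).2 ord_aleph0
    exact Ordinal.lt_omega0.1 h2
  choose r hr using h1
  have h3 : ∀ m : ℕ, (m : Ordinal.{u}) < (ℵ₀ : Cardinal.{u}).ord := by
    intro m
    rw [ord_aleph0]
    exact Ordinal.natCast_lt_omega0 m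
  refine ⟨r, fun m => ⟨ToType.mk ⟨m, h3 m⟩, fun i hi => ?_⟩, fun m => ?_⟩
  · have h4 : (ToType.toOrd i) ≤ (⟨(m : Ordinal.{u}), h3 m⟩ : Set.Iio _) := by
      show (ToType.toOrd i).1 ≤ (m : Ordinal.{u})
      rw [hr]
      exact_mod_cast (show r i < m from hi).le
    have h5 := ToType.mk.monotone h4
    simpa using h5
  · refine ⟨ToType.mk ⟨(m : Ordinal.{u}), h3 m⟩, ?_⟩
    have h4 := hr (ToType.mk ⟨(m : Ordinal.{u}), h3 m⟩)
    simp only [OrderIso.symm_apply_apply] at h4
    exact_mod_cast h4.symm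

theorem cov_of_acc (hC : Core kappa L B lam) (hω : kappa = ℵ₀)
    (hacc : ∀ f : kappa.ord.ToType → PT kappa L B lam, ∃ (K : Set (Set kappa.ord.ToType))
      (s : PT kappa L B lam), IsKIdeal kappa K ∧ Jbd kappa.ord.ToType ⊆ K ∧
        TCF (fun t => (f t).1) K s.1) :
    CovP (Set.univ : Set (PT kappa L B lam)) := by
  classical
  have hk := hC.reg.aleph0_le
  by_contra hnc
  obtain ⟨F, hF⟩ := exists_goodSys hC
  obtain ⟨H, hH⟩ := exists_hat hC hF
  obtain ⟨h, hh1, hh2⟩ := exists_top hC (fun s a ha => (hH s a ha).1)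
  obtain ⟨G, C, hch⟩ := exists_chain hC hF hh1
  obtain ⟨g, c, hl⟩ := exists_lim hC hch
  have hB := Bhat_mem hC hH hh2 hl
  have hJ := (loc_adm hC hC.lamP).1
  -- an enumeration of the index set
  have hI : Nonempty I := by
    by_contra hI
    rw [not_nonempty_iff] at hI
    apply hJ.univ_notMem
    rw [Set.univ_eq_empty_iff.2 hI]
    exact hJ.isKI.empty hk
  have hIc : Countable I := by
    rw [← Cardinal.mk_le_aleph0_iff, ← hω]
    exact hC.card
  obtain ⟨a, ha⟩ := exists_surjective_nat I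
  choose! st hst1 hst2 hst3 hst4 using fun (A : Set (PT kappa L B lam)) (x : I)
    (hA : ClP A ∧ ¬ CovP A) => step hC hF hch hl hA.1 hA.2 x
  let A : ℕ → Set (PT kappa L B lam) := fun n =>
    Nat.rec Set.univ (fun m Am => st Am (a m)) n
  have hA0 : A 0 = Set.univ := rfl
  have hAs : ∀ n, A (n + 1) = st (A n) (a n) := fun n => rfl
  have hAgood : ∀ n, ClP (A n) ∧ ¬ CovP (A n) := by
    intro n
    induction n with
    | zero => exact ⟨fun f K hK s _ _ => Set.mem_univ s, hnc⟩
    | succ n ih =>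
      rw [hAs]
      exact ⟨hst2 _ _ ih, hst3 _ _ ih⟩
  have hAanti : ∀ n m, n ≤ m → A m ⊆ A n := by
    intro n m hnm
    induction m, hnm using Nat.le_induction with
    | base => exact subset_rfl
    | succ m _ ih =>
      rw [hAs]
      exact (hst1 _ _ (hAgood m)).trans ih
  have hDcov : CovP (⋂ n, A n) := by
    by_cases hne : (⋂ n, A n).Nonempty
    · obtain ⟨z0, hz0⟩ := hne
      refine ⟨Bhat F g c z0, hB z0, fun z hz => ?_⟩
      have heq : Bhat F g c z ⊆ Bhat F g c z0 := by
        intro x hx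
        obtain ⟨n, rfl⟩ := ha x
        have h1 : z ∈ A (n + 1) := Set.mem_iInter.1 hz (n + 1)
        have h2 : z0 ∈ A (n + 1) := Set.mem_iInter.1 hz0 (n + 1)
        rw [hAs] at h1 h2
        rcases hst4 (A n) (a n) (hAgood n) with h3 | h3
        · exact h3 z0 h2
        · exact absurd hx (h3 z h1)
      exact (loc_adm hC z.2.1).1.down _ _ (Set.compl_subset_compl.2 heq)
        (Bhat_compl hC hF hch hl z)
    · refine ⟨∅, hJ.isKI.empty hk, fun z hz => ?_⟩
      exact absurd ⟨z, hz⟩ hne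
  obtain ⟨E, hE, hcov⟩ := hDcov
  have hGne : ∀ n : ℕ, ∃ z : PT kappa L B lam,
      z ∈ A n ∩ {z : PT kappa L B lam | Eᶜ ∉ Jst kappa L B z.1} := by
    intro n
    by_contra hcon
    push Not at hcon
    apply (hAgood n).2
    refine ⟨E, hE, fun z hz => ?_⟩
    by_contra h1
    exact hcon z ⟨hz, h1⟩
  choose z hz using hGne
  obtain ⟨r, hr, _⟩ := exists_pos_nat hω
  obtain ⟨K, s, hK, hKb, ht⟩ := hacc (fun i => z (r i))
  have hsG : ∀ m : ℕ, s ∈ A m ∩ {z : PT kappa L B lam | Eᶜ ∉ Jst kappa L B z.1} := by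
    intro m
    refine ClP_diff hC hF (hAgood m).1 E (fun i => z (r i)) K hK s (hK.down _ _ ?_ (hKb (hr m))) ht
    intro i hi
    by_contra hcon
    apply hi
    have h1 : m ≤ r i := not_lt.1 hcon
    exact ⟨hAanti _ _ h1 (hz (r i)).1, (hz (r i)).2⟩
  exact (hsG 0).2 (hcov s (Set.mem_iInter.2 fun m => (hsG m).1))

/-- either the spectrum below `lam` is covered by one set, or `lam` is the true cofinality of a
sequence of members of the spectrum modulo bounded sets on an unbounded set -/
theorem seq_dich (hC : Core kappa L B lam) (hω : kappa = ℵ₀)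
    (hmax : ∀ K : Set (Set I), IsKIdeal kappa K → B ⊆ K → ¬ Dir L K (Order.succ lam)) :
    CovP (Set.univ : Set (PT kappa L B lam)) ∨
      ∃ (f : kappa.ord.ToType → PT kappa L B lam) (b : Set kappa.ord.ToType),
        IsKIdeal kappa (Tr (Jbd kappa.ord.ToType) b) ∧
        TCF (fun t => (f t).1) (Tr (Jbd kappa.ord.ToType) b) lam := by
  classical
  have hk := hC.reg.aleph0_le
  by_cases hacc : ∀ f : kappa.ord.ToType → PT kappa L B lam,
      ∃ (K : Set (Set kappa.ord.ToType)) (s : PT kappa L B lam), IsKIdeal kappa K ∧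
        Jbd kappa.ord.ToType ⊆ K ∧ TCF (fun t => (f t).1) K s.1
  · exact Or.inl (cov_of_acc hC hω hacc)
  · right
    push Not at hacc
    obtain ⟨f, hf⟩ := hacc
    have hT : #(kappa.ord.ToType) ≤ kappa := (mk_ord_toType kappa).le
    have hbd := Jbd_ideal hC.reg
    have hfreg : ∀ t, (f t).1.IsRegular := fun t => loc_regular (f t).2.1
    have hsmall : ∀ t, #(Set kappa.ord.ToType) < (f t).1 := by
      intro t
      refine lt_of_le_of_lt ?_ (loc_big hC (f t).2.1)
      rw [Cardinal.mk_set]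
      exact Cardinal.power_le_power_left two_ne_zero hT
    obtain ⟨c0, hc0⟩ := not_dir_of_proper hfreg hbd.univ_notMem
    obtain ⟨sg, b, hsreg, hsdir, _, hb, hKid, htcf⟩ :=
      exists_tcf_trace hk hbd.isKI hfreg hsmall hc0
    have hGood : Adm kappa L B sg (DS f (Tr (Jbd kappa.ord.ToType) b)) := by
      obtain ⟨F, hF⟩ := exists_goodSys hC
      exact DS_adm hC hF hT f hKid htcf
    have hge : lam ≤ sg := by
      by_contra hcon
      exact hf _ ⟨sg, ⟨_, hGood⟩, not_le.1 hcon⟩ hKid (Tr_sub hbd.isKI b) htcf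
    have hle : sg ≤ lam := by
      by_contra hcon
      exact hmax _ hGood.1 hGood.2.1 ((hGood.2.2.dir hGood.1.isKI hk).anti
        (Order.succ_le_of_lt (not_le.1 hcon)))
    have heq : sg = lam := le_antisymm hle hge
    subst heq
    exact ⟨f, b, hKid, htcf⟩

end

end Pool.Agent.PcfInc
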