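import Pool.Agent.PcfInc.Sub
import Pool.Agent.PcfInc.Inc1
import Pool.Agent.PcfInc.Seqn
import Pool.Agent.Helper6.Pcf.BRepOf

/-!
The standing assumptions on a strictly increasing sequence, and the final extraction.
-/

universe u

open Cardinal Ordinal Set Pool.Agent.Helper6.Pcf

namespace Pool.Agent.PcfInc

section

variable {kappa mu lam : Cardinal.{u}}

theorem exists_core (hk : kappa.IsRegular) (hcof : mu.ord.cof = kappa)
    (hbig : (2 : Cardinal.{u}) ^ kappa < mu) (s : kappa.ord.ToType → Cardinal.{u})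
    (hs : StrictMono s) (hreg : ∀ i, (s i).IsRegular)
    (hsbig : ∀ i, (2 : Cardinal.{u}) ^ kappa < s i) (hlub : IsLUB (Set.range s) mu)
    (K : Set (Set kappa.ord.ToType)) (hK : IsKIdeal kappa K) (hJ : Jbd kappa.ord.ToType ⊆ K)
    (hT : TCF s K lam) :
    ∃ b : Set kappa.ord.ToType, Core kappa s (Tr (Jbd kappa.ord.ToType) b) lam ∧
      (∀ K' : Set (Set kappa.ord.ToType), IsKIdeal kappa K' →
        Tr (Jbd kappa.ord.ToType) b ⊆ K' → ¬ Dir s K' (Order.succ lam)) ∧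
      (∀ th, InP kappa s (Tr (Jbd kappa.ord.ToType) b) th → mu < th ∧ Rep kappa mu th) ∧
      bᶜ ∈ Tr (Jbd kappa.ord.ToType) b ∧
      Adm kappa s (Tr (Jbd kappa.ord.ToType) b) lam K := by
  classical
  have hinf := hk.aleph0_le
  have hkm : kappa < mu := (Cardinal.cantor kappa).trans hbig
  have hsmall : ∀ x, #(Set kappa.ord.ToType) < s x := by
    intro x
    refine lt_of_le_of_lt ?_ (hsbig x)
    rw [Cardinal.mk_set, mk_ord_toType]
  have hB0KI : IsKI kappa (Jbd kappa.ord.ToType) := (Jbd_ideal hk).isKI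
  have hInP0 : InP kappa s (Jbd kappa.ord.ToType) lam := ⟨K, hK, hJ, hT⟩
  obtain ⟨b, hb1, hb2⟩ := exists_gen hinf hreg hsmall hInP0
  set B : Set (Set kappa.ord.ToType) := Tr (Jbd kappa.ord.ToType) b with hB
  have hBKI : IsKI kappa B := Tr_isKI hB0KI b
  have hB0B : Jbd kappa.ord.ToType ⊆ B := Tr_sub hB0KI b
  have hbc : bᶜ ∈ B := by
    show bᶜ ∩ b ∈ Jbd kappa.ord.ToType
    rw [Set.compl_inter_self]; exact hB0KI.empty hinf
  have hbK : bᶜ ∈ K := hb1 _ ⟨hK, hJ, hT⟩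
  have hAdm : Adm kappa s B lam K := by
    refine ⟨hK, ?_, hT⟩
    intro X hX
    refine hK.down _ _ ?_ (hK.isKI.union hinf (hJ hX) hbK)
    intro y hy
    by_cases h : y ∈ b
    · exact Or.inl ⟨hy, h⟩
    · exact Or.inr h
  have hC : Core kappa s B lam :=
    ⟨hk, (by rw [mk_ord_toType]), hreg, hsbig, hBKI, ⟨K, hAdm⟩⟩
  have hmax : ∀ K : Set (Set kappa.ord.ToType), IsKIdeal kappa K → B ⊆ K →
      ¬ Dir s K (Order.succ lam) := by
    intro K hK hBK hd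
    have h1 := hb2 K hK.isKI (hB0B.trans hBK) hd
    have h2 := hK.isKI.union hinf h1 (hBK hbc)
    rw [Set.union_compl_self] at h2
    exact hK.univ_notMem h2
  have hbdd : ∀ X : Set kappa.ord.ToType, (∃ c, c < mu ∧ ∀ x ∈ X, s x ≤ c) →
      X ∈ Jbd kappa.ord.ToType := by
    rintro X ⟨c, hc, hX⟩
    obtain ⟨i, hi⟩ := lub_ex hlub hc
    exact ⟨i, fun x hx => (hs.lt_iff_lt.1 (lt_of_le_of_lt (hX x hx) hi)).le⟩
  have hdir0 : Dir s (Jbd kappa.ord.ToType) (Order.succ mu) := by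
    refine dir_succ_of_bdd s _ hk hcof hkm hreg
      (fun x => (Cardinal.cantor kappa).trans (hsbig x)) hB0KI.down ?_
    intro c hc
    exact hbdd _ ⟨c, hc, fun x hx => hx⟩
  refine ⟨b, hC, hmax, ?_, hbc, hAdm⟩
  rintro th ⟨K', hK'⟩
  refine ⟨?_, ?_⟩
  · by_contra hcon
    rw [not_lt] at hcon
    apply TCF.not_dir hK'.1 hinf hK'.2.2
    exact (hdir0.mono (hB0B.trans hK'.2.1)).anti (Order.succ_le_succ hcon)
  · exact ⟨_, s, K', ⟨mk_ord_toType _, hs.injective, hreg, fun x => lub_lt hk hs hlub x,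
      fun c hc => lub_ex hlub hc, hK'.1,
      fun X hX => hK'.2.1 (hB0B (hbdd X hX)), hK'.2.2⟩⟩

theorem brep_of_orth (hk : kappa.IsRegular) (hcof : mu.ord.cof = kappa)
    (hbig : (2 : Cardinal.{u}) ^ kappa < mu) {s : kappa.ord.ToType → Cardinal.{u}}
    (hs : StrictMono s) (hlub : IsLUB (Set.range s) mu) {b : Set kappa.ord.ToType}
    (hC : Core kappa s (Tr (Jbd kappa.ord.ToType) b) lam)
    (hmax : ∀ K' : Set (Set kappa.ord.ToType), IsKIdeal kappa K' →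
        Tr (Jbd kappa.ord.ToType) b ⊆ K' → ¬ Dir s K' (Order.succ lam))
    (x : Set kappa.ord.ToType) (hx : x ∉ Tr (Jbd kappa.ord.ToType) b)
    (hE : ∀ th, InP kappa s (Tr (Jbd kappa.ord.ToType) b) th → th < lam →
      ∃ E : Set kappa.ord.ToType, E ∩ x ∈ Tr (Jbd kappa.ord.ToType) b ∧
        Eᶜ ∈ Jst kappa s (Tr (Jbd kappa.ord.ToType) b) th) :
    ∃ s' : kappa.ord.ToType → Cardinal.{u}, StrictMono s' ∧ (∀ i, ∃ y, s' i = s y) ∧
      IsLUB (Set.range s') mu ∧ TCF s' (Jbd kappa.ord.ToType) lam := by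
  classical
  have hinf := hk.aleph0_le
  have hkm : kappa < mu := (Cardinal.cantor kappa).trans hbig
  set B : Set (Set kappa.ord.ToType) := Tr (Jbd kappa.ord.ToType) b with hB
  have hBKI := hC.base
  have hKx := Tr_isKI hBKI x
  have hKxp : IsKIdeal kappa (Tr B x) := by
    refine ⟨fun h => hx ?_, hKx.down, hKx.sUnion⟩
    have h1 : Set.univ ∩ x ∈ B := h
    rwa [Set.univ_inter] at h1
  have hnd := hmax _ hKxp (Tr_sub hBKI x)
  obtain ⟨sg, b', hs1, hs2, hs3, hs4, hs5, hs6⟩ :=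
    exists_tcf_trace hinf hKx hC.Lreg hC.small hnd
  have hadm : Adm kappa s B sg (Tr (Tr B x) b') :=
    ⟨hs5, (Tr_sub hBKI x).trans (Tr_sub hKx b'), hs6⟩
  have hge : lam ≤ sg := by
    by_contra hcon
    obtain ⟨E, hE1, hE2⟩ := hE sg ⟨_, hadm⟩ (not_le.1 hcon)
    have h1 : Eᶜ ∈ Tr (Tr B x) b' := hE2 _ hadm
    have h2 : E ∈ Tr (Tr B x) b' := Tr_sub hKx b' hE1
    have h3 := hs5.isKI.union hinf h2 h1
    rw [Set.union_compl_self] at h3
    exact hs5.univ_notMem h3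
  have hle : sg ≤ lam := by
    by_contra hcon
    exact hnd (hs2.anti (Order.succ_le_of_lt (not_le.1 hcon)))
  have heq : sg = lam := le_antisymm hle hge
  subst heq
  have hTr : Tr (Tr B x) b' = Tr (Jbd kappa.ord.ToType) (b' ∩ x ∩ b) := by
    ext X
    show ((X ∩ b') ∩ x) ∩ b ∈ Jbd kappa.ord.ToType ↔ X ∩ (b' ∩ x ∩ b) ∈ Jbd kappa.ord.ToType
    have : ((X ∩ b') ∩ x) ∩ b = X ∩ (b' ∩ x ∩ b) := by
      ext y
      simp only [Set.mem_inter_iff]
      tauto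
    rw [this]
  have hne : b' ∩ x ∩ b ∉ Jbd kappa.ord.ToType := by
    intro h
    apply hs5.univ_notMem
    rw [hTr]
    show Set.univ ∩ (b' ∩ x ∩ b) ∈ Jbd kappa.ord.ToType
    rw [Set.univ_inter]; exact h
  have hlt := fun i => lub_lt hk hs hlub i
  obtain ⟨s', h1, h2, h3, h4⟩ := BRep_of_unbdd s (Jbd kappa.ord.ToType) hk hcof hkm hC.Lreg hlt
    (fun X => by
      constructor
      · rintro ⟨c, hc⟩
        exact ⟨s c, hlt c, fun x hx => hs.monotone (hc x hx)⟩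
      · rintro ⟨c, hc, hX⟩
        obtain ⟨i, hi⟩ := lub_ex hlub hc
        exact ⟨i, fun x hx => (hs.lt_iff_lt.1 (lt_of_le_of_lt (hX x hx) hi)).le⟩)
    (b' ∩ x ∩ b) hne (by rw [← hTr]; exact hs6)
  exact ⟨s', h1, fun i => by obtain ⟨y, _, hy⟩ := h2 i; exact ⟨y, hy⟩, h3, h4⟩

end

end Pool.Agent.PcfInc
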