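import Pool.Agent.PcfInc.Comp
import Pool.Agent.Helper6.Pcf.BRepOf

/-!
Enumeration of a family in increasing order, and the union of many sequences.
-/

universe u

open Cardinal Ordinal Set Pool.Agent.Helper6.Pcf

namespace Pool.Agent.PcfInc

section

variable {kappa mu lam : Cardinal.{u}}

/-- a family of cardinals below `mu`, unbounded in `mu`, with fewer than `kappa` many members
below each `c < mu`, has the range of a strictly increasing sequence of length `kappa` -/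
theorem exists_enum {I : Type u} (hcof : mu.ord.cof = kappa)
    (L : I → Cardinal.{u}) (hlt : ∀ x, L x < mu) (hub : ∀ c, c < mu → ∃ x, c < L x)
    (hs : ∀ c, c < mu → #{x | L x ≤ c} < kappa) :
    ∃ s : kappa.ord.ToType → Cardinal.{u}, StrictMono s ∧ (∀ i, ∃ x, L x = s i) ∧
      ∀ x, ∃ i, s i = L x := by
  classical
  have key : ∀ (i : kappa.ord.ToType) (g : ∀ j, j < i → I),
      ∃ y : I, (∀ j (hj : j < i), L (g j hj) < L y) ∧
        ∀ z : I, (∀ j (hj : j < i), L (g j hj) < L z) → L y ≤ L z := by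
    intro i g
    have h1 : (⨆ j : Set.Iio i, L (g j.1 j.2)) < mu := by
      refine Cardinal.iSup_lt_of_lt_cof_ord ?_ fun j => hlt _
      rw [hcof]
      have h2 := mk_Iio_lt i (by rw [mk_ord_toType, type_toType])
      rwa [mk_ord_toType] at h2
    obtain ⟨x, hx⟩ := hub _ h1
    have hx' : ∀ j (hj : j < i), L (g j hj) < L x := by
      intro j hj
      have h3 : L (g j hj) ≤ ⨆ j : Set.Iio i, L (g j.1 j.2) :=
        le_ciSup (f := fun j : Set.Iio i => L (g j.1 j.2)) Cardinal.bddAbove_of_small ⟨j, hj⟩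
      exact lt_of_le_of_lt h3 hx
    let S : Set Cardinal.{u} := {c | ∃ y : I, (∀ j (hj : j < i), L (g j hj) < L y) ∧ L y = c}
    have hS : S.Nonempty := ⟨L x, x, hx', rfl⟩
    obtain ⟨y, hy1, hy2⟩ := csInf_mem hS
    refine ⟨y, hy1, fun z hz => ?_⟩
    rw [hy2]
    exact csInf_le' ⟨z, hz, rfl⟩
  choose F hF1 hF2 using key
  have wf : WellFounded (fun a b : kappa.ord.ToType => a < b) := wellFounded_lt
  let s : kappa.ord.ToType → I := wf.fix F
  have hsf : ∀ i, s i = F i (fun j _ => s j) := fun i => wf.fix_eq F i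
  have hmono : StrictMono (fun i => L (s i)) := by
    intro j i hj
    have h1 := hF1 i (fun j _ => s j) j hj
    rw [← hsf i] at h1
    exact h1
  have hmin : ∀ i z, (∀ j, j < i → L (s j) < L z) → L (s i) ≤ L z := by
    intro i z hz
    have h1 := hF2 i (fun j _ => s j) z hz
    rw [← hsf i] at h1
    exact h1
  refine ⟨fun i => L (s i), hmono, fun i => ⟨s i, rfl⟩, fun x => ?_⟩
  by_contra hcon
  push Not at hcon
  have hall : ∀ i, L (s i) < L x := by
    intro i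
    induction i using WellFoundedLT.induction with
    | ind i ih => exact lt_of_le_of_ne (hmin i x ih) (hcon i)
  have h1 : kappa ≤ #{z | L z ≤ L x} := by
    rw [← mk_ord_toType kappa]
    refine Cardinal.mk_le_of_injective
      (f := fun i : kappa.ord.ToType => (⟨s i, (hall i).le⟩ : {z | L z ≤ L x})) ?_
    intro i j hij
    apply hmono.injective
    have h2 : s i = s j := congrArg Subtype.val hij
    show L (s i) = L (s j)
    rw [h2]
  exact absurd (hs _ (hlt x)) (not_lt.2 h1)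

theorem lub_lt {s : kappa.ord.ToType → Cardinal.{u}} (hk : kappa.IsRegular)
    (hs : StrictMono s) (hlub : IsLUB (Set.range s) mu) (i : kappa.ord.ToType) : s i < mu := by
  have hlim : ∃ j, i < j := by
    have h1 : (ToType.toOrd i).1 < kappa.ord := (ToType.toOrd i).2
    have h2 := lt_add_one_ord hk h1
    refine ⟨ToType.mk ⟨(ToType.toOrd i).1 + 1, h2⟩, ?_⟩
    have h3 : ToType.mk (ToType.toOrd i) < ToType.mk ⟨(ToType.toOrd i).1 + 1, h2⟩ := by
      rw [ToType.mk.lt_iff_lt]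
      show (ToType.toOrd i).1 < (ToType.toOrd i).1 + 1
      exact Order.lt_add_one_iff.2 le_rfl
    simpa using h3
  obtain ⟨j, hj⟩ := hlim
  exact lt_of_lt_of_le (hs hj) (hlub.1 ⟨j, rfl⟩)

theorem lub_ex {s : kappa.ord.ToType → Cardinal.{u}}
    (hlub : IsLUB (Set.range s) mu) {c : Cardinal.{u}} (hc : c < mu) : ∃ i, c < s i := by
  by_contra hcon
  push Not at hcon
  have : mu ≤ c := hlub.2 (by rintro _ ⟨i, rfl⟩; exact hcon i)
  exact absurd hc (not_lt.2 this)

/-- many sequences merged into one -/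
theorem union_seq (hk : kappa.IsRegular) (hcof : mu.ord.cof = kappa)
    (hbig : (2 : Cardinal.{u}) ^ kappa < mu) {D : Type u} (hD : #D ≤ kappa) (hne : Nonempty D)
    (tau : D → Cardinal.{u}) (htau : ∀ d, (tau d).IsRegular)
    (sq : D → kappa.ord.ToType → Cardinal.{u}) (J : D → Set (Set kappa.ord.ToType))
    (h : ∀ d, StrictMono (sq d) ∧ (∀ i, (sq d i).IsRegular) ∧ IsLUB (Set.range (sq d)) mu ∧
      IsKIdeal kappa (J d) ∧ Jbd kappa.ord.ToType ⊆ J d ∧ TCF (sq d) (J d) (tau d)) :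
    ∃ s : kappa.ord.ToType → Cardinal.{u}, StrictMono s ∧ (∀ i, ∃ d j, s i = sq d j) ∧
      (∀ i, (s i).IsRegular) ∧
      (∀ i, (2 : Cardinal.{u}) ^ kappa < s i) ∧ IsLUB (Set.range s) mu ∧
      ∀ (lam : Cardinal.{u}) (JT : Set (Set D)), IsKIdeal kappa JT → TCF tau JT lam →
        ∃ K : Set (Set kappa.ord.ToType), IsKIdeal kappa K ∧ Jbd kappa.ord.ToType ⊆ K ∧
          TCF s K lam := by
  classical
  have hinf := hk.aleph0_le
  obtain ⟨d0⟩ := hne
  obtain ⟨j⟩ : Nonempty (D ↪ kappa.ord.ToType) := by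
    rw [← Cardinal.le_def, mk_ord_toType]; exact hD
  let φ : kappa.ord.ToType → Cardinal.{u} := sq d0
  have hφ : StrictMono φ := (h d0).1
  have hφlt : ∀ i, φ i < mu := fun i => lub_lt hk hφ (h d0).2.2.1 i
  have hφex : ∀ c, c < mu → ∃ i, c < φ i := fun c hc => lub_ex (h d0).2.2.1 hc
  let I : Type u := {p : D × kappa.ord.ToType //
    φ (j p.1) < sq p.1 p.2 ∧ (2 : Cardinal.{u}) ^ kappa < sq p.1 p.2}
  let L : I → Cardinal.{u} := fun p => sq p.1.1 p.1.2
  have hLlt : ∀ p, L p < mu := by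
    rintro ⟨⟨d, i⟩, _⟩
    exact lub_lt hk (h d).1 (h d).2.2.1 i
  -- members of one sequence
  have hcon : ∀ d, ∀ c, c < mu → ∃ i0, ∀ i, sq d i ≤ c → i < i0 := by
    intro d c hc
    obtain ⟨i0, hi0⟩ := lub_ex (h d).2.2.1 hc
    exact ⟨i0, fun i hi => (h d).1.lt_iff_lt.1 (lt_of_le_of_lt hi hi0)⟩
  have hLub : ∀ c, c < mu → ∃ p, c < L p := by
    intro c hc
    obtain ⟨i, hi⟩ := lub_ex (h d0).2.2.1 (max_lt (max_lt hc (hφlt (j d0))) hbig)
    refine ⟨⟨(d0, i), ?_, ?_⟩, ?_⟩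
    · exact lt_of_le_of_lt ((le_max_right _ _).trans (le_max_left _ _)) hi
    · exact lt_of_le_of_lt (le_max_right _ _) hi
    · exact lt_of_le_of_lt ((le_max_left _ _).trans (le_max_left _ _)) hi
  have hLs : ∀ c, c < mu → #{x | L x ≤ c} < kappa := by
    intro c hc
    obtain ⟨i0, hi0⟩ := hφex c hc
    have h1 : #{d | j d < i0} < kappa := by
      refine lt_of_le_of_lt ?_ (mk_Iio_toType_ord_lt i0)
      refine Cardinal.mk_le_of_injective
        (f := fun d : {d | j d < i0} => (⟨j d.1, d.2⟩ : Set.Iio i0)) ?_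
      intro a b hab
      exact Subtype.ext (j.injective (congrArg Subtype.val hab))
    have h2 : ({x | L x ≤ c} : Set I) ⊆
        ⋃ d : {d | j d < i0}, {x : I | x.1.1 = d.1 ∧ L x ≤ c} := by
      intro x hx
      have hx' : L x ≤ c := hx
      refine Set.mem_iUnion.2 ⟨⟨x.1.1, ?_⟩, rfl, hx⟩
      have h3 : φ (j x.1.1) < φ i0 := (x.2.1.trans_le hx').trans hi0
      exact hφ.lt_iff_lt.1 h3
    refine lt_of_le_of_lt (Cardinal.mk_le_mk_of_subset h2) ?_
    rw [Cardinal.card_iUnion_lt_iff_forall_of_isRegular hk h1]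
    rintro ⟨d, hd⟩
    obtain ⟨i1, hi1⟩ := hcon d c hc
    refine lt_of_le_of_lt ?_ (mk_Iio_toType_ord_lt i1)
    refine Cardinal.mk_le_of_injective
      (f := fun x : {x : I | x.1.1 = d ∧ L x ≤ c} => (⟨x.1.1.2, hi1 _ (by
        have h3 : sq x.1.1.1 x.1.1.2 ≤ c := x.2.2
        have h4 : x.1.1.1 = d := x.2.1
        exact (congrArg (fun z => sq z x.1.1.2) h4).ge.trans h3)⟩ : Set.Iio i1)) ?_
    rintro ⟨⟨⟨d1, a⟩, ha⟩, ha1, ha2⟩ ⟨⟨⟨d2, b⟩, hb⟩, hb1, hb2⟩ hab
    have h3 : a = b := congrArg Subtype.val hab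
    have h4 : d1 = d := ha1
    have h5 : d2 = d := hb1
    subst h3 h4 h5
    rfl
  obtain ⟨s, hs1, hs2, hs3⟩ := exists_enum hcof L hLlt hLub hLs
  have hsreg : ∀ i, (s i).IsRegular := by
    intro i
    obtain ⟨⟨⟨d, a⟩, h'⟩, hp⟩ := hs2 i
    rw [← hp]
    exact (h d).2.1 a
  have hsbig : ∀ i, (2 : Cardinal.{u}) ^ kappa < s i := by
    intro i
    obtain ⟨⟨⟨d, a⟩, h', h''⟩, hp⟩ := hs2 i
    rw [← hp]
    exact h''
  have hslub : IsLUB (Set.range s) mu := by
    refine ⟨?_, ?_⟩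
    · rintro _ ⟨i, rfl⟩
      obtain ⟨p, hp⟩ := hs2 i
      rw [← hp]
      exact (hLlt p).le
    · intro b hb
      by_contra hc
      rw [not_le] at hc
      obtain ⟨p, hp⟩ := hLub b hc
      obtain ⟨i, hi⟩ := hs3 p
      have h1 : s i ≤ b := hb ⟨i, rfl⟩
      rw [hi] at h1
      exact absurd hp (not_lt.2 h1)
  have hsmem : ∀ i, ∃ d j, s i = sq d j := by
    intro i
    obtain ⟨⟨⟨d, a⟩, h'⟩, hp⟩ := hs2 i
    exact ⟨d, a, hp.symm⟩
  refine ⟨s, hs1, hsmem, hsreg, hsbig, hslub, ?_⟩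
  intro lam JT hJT hTT
  -- the map
  choose q hq using hs3
  let i00 : kappa.ord.ToType := ToType.mk ⟨0, hk.ord_pos⟩
  let e : ∀ d : D, kappa.ord.ToType → kappa.ord.ToType := fun d i =>
    if hp : φ (j d) < sq d i ∧ (2 : Cardinal.{u}) ^ kappa < sq d i then
      q ⟨(d, i), hp⟩ else i00
  have he : ∀ d, {i | ¬ (s (e d i) = sq d i ∧ kappa < sq d i)} ∈ J d := by
    intro d
    obtain ⟨i0, hi0⟩ := hcon d (max (φ (j d)) (2 ^ kappa)) (max_lt (hφlt _) hbig)
    refine (h d).2.2.2.1.down _ _ ?_ ((h d).2.2.2.2.1 (show Set.Iio i0 ∈ _ from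
      ⟨i0, fun x hx => (show x < i0 from hx).le⟩))
    intro i hi
    by_contra hcon2
    apply hi
    have h1 : ¬ sq d i ≤ max (φ (j d)) (2 ^ kappa) := fun h => hcon2 (hi0 i h)
    rw [not_le] at h1
    have hp : φ (j d) < sq d i ∧ (2 : Cardinal.{u}) ^ kappa < sq d i :=
      ⟨lt_of_le_of_lt (le_max_left _ _) h1, lt_of_le_of_lt (le_max_right _ _) h1⟩
    refine ⟨?_, (Cardinal.cantor kappa).trans hp.2⟩
    have h2 : e d i = q ⟨(d, i), hp⟩ := dif_pos hp
    rw [h2, hq]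
  have hM : (Set.univ : Set D)ᶜ ∈ JT := by
    rw [Set.compl_univ]
    exact hJT.isKI.empty hinf
  refine ⟨CompI Set.univ JT J e, CompI_ideal hk hM hJT (fun d _ => (h d).2.2.2.1), ?_,
    CompI_tcf hk hD (fun _ => by rw [mk_ord_toType]) s hsreg tau htau Set.univ JT hM hJT hTT sq J
      (fun d _ => (h d).2.2.2.1) (fun d _ => (h d).2.2.2.2.2) e (fun d _ => he d)⟩
  rintro X ⟨b, hb⟩
  rw [mem_CompI]
  have h3 : {t | t ∈ (Set.univ : Set D) ∧ {i | e t i ∈ X} ∉ J t} = (∅ : Set D) := by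
    ext d
    simp only [Set.mem_ofPred_eq, Set.mem_empty_iff_false, iff_false, not_and, not_not]
    intro _
    obtain ⟨i0, hi0⟩ := hcon d (s b) (lub_lt hk hs1 hslub b)
    refine (h d).2.2.2.1.down _ _ ?_ ((h d).2.2.2.1.isKI.union hinf (he d)
      ((h d).2.2.2.2.1 (show Set.Iio i0 ∈ _ from ⟨i0, fun x hx => (show x < i0 from hx).le⟩)))
    intro i hi
    by_cases h4 : s (e d i) = sq d i ∧ kappa < sq d i
    · right
      apply hi0
      rw [← h4.1]
      exact hs1.monotone (hb _ hi)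
    · left; exact h4
  rw [h3]
  exact hJT.isKI.empty hinf

end

end Pool.Agent.PcfInc
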