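import Pool.Agent.PcfInc.Chi2
import Pool.Agent.Helper6.Pcf.LocC
import Pool.Agent.Helper6.Pcf.ExChi

/-!
The ideal can be generated, over the bounded sets, by few sets.
-/

universe u

open Cardinal Ordinal Set Pool.Agent.Helper6.Pcf

namespace Pool.Agent.PcfInc

section

variable {I : Type u} {kappa mu lam : Cardinal.{u}} {L : I → Cardinal.{u}} {B : Set (Set I)}

/-- few sets take care of all smaller members of the spectrum -/
theorem exists_few (hC : Core kappa L B lam)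
    (hmax : ∀ K : Set (Set I), IsKIdeal kappa K → B ⊆ K → ¬ Dir L K (Order.succ lam))
    (hmu : ∀ th, InP kappa L B th → mu < th) (Sp : Set Cardinal.{u})
    (hSp : ∀ th, InP kappa L B th → th < lam → th ∈ Sp) :
    ∃ Es : Set (Set I), Es ⊆ Jst kappa L B lam ∧
      Cardinal.lift.{u + 1} #Es ≤ Cardinal.lift.{u + 1} kappa + #(XS kappa mu lam Sp) ∧
      ∀ th, InP kappa L B th → th < lam → ∃ E ∈ Es, Eᶜ ∈ Jst kappa L B th := by
  classical
  have hloc : ∀ A : Set Cardinal.{u}, (∀ th, th ∈ A → InP kappa L B th ∧ th < lam) →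
      (∀ (T : Type u) (f : T → Cardinal.{u}), #T ≤ kappa → (∀ t, f t ∈ A) →
        Covered kappa L B lam (Set.range f)) → Covered kappa L B lam A :=
    fun A hA hcov => localization hC hmax A hA hcov
  have hex : ∀ chi : XS kappa mu lam Sp, ∃ φ : kappa.ord.ToType → Cardinal.{u},
      (∀ i, φ i < chi.1) ∧ ∀ c, c < chi.1 → ∃ i, c ≤ φ i := fun chi => brepOf_cofinal chi.2.2.2.1
  choose φ hφ1 hφ2 using hex
  let A : XS kappa mu lam Sp × kappa.ord.ToType → Set Cardinal.{u} := fun p =>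
    {th | (InP kappa L B th ∧ th < lam) ∧ (∀ chi' ∈ XS kappa mu lam Sp, chi' < p.1.1 → chi' ≤ th) ∧
      th ≤ φ p.1 p.2}
  let A0 : Set Cardinal.{u} :=
    {th | (InP kappa L B th ∧ th < lam) ∧ ∀ chi' ∈ XS kappa mu lam Sp, chi' ≤ th}
  have hA : ∀ p, Covered kappa L B lam (A p) := by
    rintro ⟨chi, i⟩
    by_contra hnc
    obtain ⟨chi0, h1, h2, h3, h4, h5, h6⟩ := exists_chi2 hC (mu := mu) hloc (A (chi, i))
      (fun th hth => ⟨hth.1.1, hmu th hth.1.1, hth.1.2⟩) hnc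
    rcases lt_or_ge chi0 chi.1 with h7 | h7
    · apply h6
      refine exchi_mono ?_ (exchi_empty hC)
      rintro th ⟨h8, h9⟩
      exact absurd (h8.2.1 chi0 ⟨h1, h2, h3, h4.mono fun th h => hSp th h.1.1 h.1.2⟩ h7)
        (not_le.2 h9)
    · apply h6
      refine exchi_mono ?_ (h5 (φ chi i) (lt_of_lt_of_le (hφ1 chi i) h7))
      rintro th ⟨h8, h9⟩
      exact ⟨h8, h8.2.2⟩
  have hA0 : Covered kappa L B lam A0 := by
    by_contra hnc
    obtain ⟨chi0, h1, h2, h3, h4, h5, h6⟩ := exists_chi2 hC (mu := mu) hloc A0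
      (fun th hth => ⟨hth.1.1, hmu th hth.1.1, hth.1.2⟩) hnc
    apply h6
    refine exchi_mono ?_ (exchi_empty hC)
    rintro th ⟨h8, h9⟩
    exact absurd (h8.2 chi0 ⟨h1, h2, h3, h4.mono fun th h => hSp th h.1.1 h.1.2⟩)
      (not_le.2 h9)
  choose E hE1 hE2 using hA
  obtain ⟨E0, hE01, hE02⟩ := hA0
  refine ⟨insert E0 (Set.range E), ?_, ?_, ?_⟩
  · rintro X (hX | ⟨p, rfl⟩)
    · rw [hX]; exact hE01
    · exact hE1 p
  · have hinf : ℵ₀ ≤ Cardinal.lift.{u + 1} kappa := by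
      rw [aleph0_le_lift]; exact hC.reg.aleph0_le
    have h1 : Cardinal.lift.{u + 1} #(Set.range E) ≤ Cardinal.lift.{u} #(XS kappa mu lam Sp ×
        kappa.ord.ToType) := Cardinal.mk_range_le_lift
    have h2 : #(XS kappa mu lam Sp × kappa.ord.ToType) =
        #(XS kappa mu lam Sp) * Cardinal.lift.{u + 1} kappa := by
      rw [Cardinal.mk_prod, Cardinal.lift_id'.{u, u + 1}, mk_ord_toType]
    rw [h2, Cardinal.lift_id'.{u, u + 1}] at h1
    have h3 : #(XS kappa mu lam Sp) * Cardinal.lift.{u + 1} kappa ≤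
        Cardinal.lift.{u + 1} kappa + #(XS kappa mu lam Sp) := by
      refine (Cardinal.mul_le_max_of_aleph0_le_right hinf).trans ?_
      exact max_le (self_le_add_left _ _) (self_le_add_right _ _)
    have h4 : #(insert E0 (Set.range E) : Set (Set I)) ≤ #(Set.range E) + 1 := mk_insert_le
    have h5 : Cardinal.lift.{u + 1} #(insert E0 (Set.range E) : Set (Set I)) ≤
        Cardinal.lift.{u + 1} #(Set.range E) + 1 := by
      have := Cardinal.lift_le.{u + 1}.2 h4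
      rwa [Cardinal.lift_add, Cardinal.lift_one] at this
    refine h5.trans ?_
    refine (add_le_add (h1.trans h3) le_rfl).trans ?_
    rw [add_right_comm, Cardinal.add_one_eq hinf]
  · intro th hth hlt
    by_cases hx : ∃ chi ∈ XS kappa mu lam Sp, th < chi
    · let S : Set Cardinal.{u} := {chi | chi ∈ XS kappa mu lam Sp ∧ th < chi}
      have hS : S.Nonempty := by
        obtain ⟨chi, h1, h2⟩ := hx
        exact ⟨chi, h1, h2⟩
      have hm := csInf_mem hS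
      obtain ⟨i, hi⟩ := hφ2 ⟨sInf S, hm.1⟩ th hm.2
      refine ⟨E (⟨sInf S, hm.1⟩, i), Or.inr ⟨_, rfl⟩, hE2 (⟨sInf S, hm.1⟩, i) th
        ⟨⟨hth, hlt⟩, fun chi' hc hc' => ?_, hi⟩⟩
      by_contra hcon
      exact absurd (csInf_le' (s := S) ⟨hc, not_le.1 hcon⟩) (not_le.2 hc')
    · push Not at hx
      exact ⟨E0, Or.inl rfl, hE02 th ⟨⟨hth, hlt⟩, hx⟩⟩

/-- `G` generates `J` over `B`: each member of `J` is covered by a member of `B` and fewer than
`kappa` members of `G` -/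
def Gens (kappa : Cardinal.{u}) (G B J : Set (Set I)) : Prop :=
  G ⊆ J ∧ B ⊆ J ∧ ∀ X ∈ J, ∃ S : Set (Set I), S ⊆ G ∧ #S < kappa ∧ ∃ Y ∈ B, X ⊆ Y ∪ ⋃₀ S

/-- the ideal generated -/
def GenI (kappa : Cardinal.{u}) (G B : Set (Set I)) : Set (Set I) :=
  {X | ∃ S : Set (Set I), S ⊆ G ∧ #S < kappa ∧ ∃ Y ∈ B, X ⊆ Y ∪ ⋃₀ S}

theorem GenI_isKI (hk : kappa.IsRegular) {G B : Set (Set I)} (hB : IsKI kappa B) :
    IsKI kappa (GenI kappa G B) := by
  classical
  refine ⟨?_, ?_⟩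
  · rintro X Y hXY ⟨S, h1, h2, Z, h3, h4⟩
    exact ⟨S, h1, h2, Z, h3, hXY.trans h4⟩
  · intro T hT hc
    have h1 : ∀ X : T, ∃ S : Set (Set I), S ⊆ G ∧ #S < kappa ∧ ∃ Y ∈ B, X.1 ⊆ Y ∪ ⋃₀ S :=
      fun X => hT X.2
    choose S hS1 hS2 Y hY1 hY2 using h1
    refine ⟨⋃ X, S X, Set.iUnion_subset hS1, ?_, ⋃ X, Y X, hB.iUnion Y hc hY1, ?_⟩
    · rw [Cardinal.card_iUnion_lt_iff_forall_of_isRegular hk hc]
      exact hS2
    · rintro x ⟨X, hX, hx⟩
      rcases hY2 ⟨X, hX⟩ hx with h | ⟨Z, hZ, hx'⟩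
      · exact Or.inl (Set.mem_iUnion.2 ⟨⟨X, hX⟩, h⟩)
      · exact Or.inr ⟨Z, Set.mem_iUnion.2 ⟨⟨X, hX⟩, hZ⟩, hx'⟩

theorem GenI_sub (hk : kappa.IsRegular) (G B : Set (Set I)) : B ⊆ GenI kappa G B := by
  intro Y hY
  refine ⟨∅, Set.empty_subset _, ?_, Y, hY, Set.subset_union_left⟩
  simpa using lt_of_lt_of_le aleph0_pos hk.aleph0_le

theorem GenI_sub' (hk : kappa.IsRegular) {G B : Set (Set I)} (hB : IsKI kappa B) :
    G ⊆ GenI kappa G B := by
  intro E hE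
  refine ⟨{E}, Set.singleton_subset_iff.2 hE, ?_, ∅, hB.empty hk.aleph0_le, ?_⟩
  · rw [Cardinal.mk_singleton]
    exact Cardinal.one_lt_aleph0.trans_le hk.aleph0_le
  · intro x hx
    exact Or.inr ⟨E, rfl, hx⟩

end

end Pool.Agent.PcfInc
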