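import Pool.Agent.PcfInc.Compact

/-!
On a strictly increasing sequence the ideal can be taken generated, over the bounded sets, by few
sets.
-/

universe u

open Cardinal Ordinal Set Pool.Agent.Helper6.Pcf

namespace Pool.Agent.PcfInc

section

variable {kappa mu lam : Cardinal.{u}}

/-- `K` is compact over `B`: a subfamily of `K` each of whose subfamilies of size at most
`kappa` has a bound in `K` modulo `B` has a bound in `K` modulo `B` -/
def Cpt {I : Type u} (kappa : Cardinal.{u}) (B K : Set (Set I)) : Prop :=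
  ∀ W : Set (Set I), W ⊆ K →
    (∀ W' : Set (Set I), W' ⊆ W → #W' ≤ kappa → ∃ z ∈ K, ∀ w ∈ W', w \ z ∈ B) →
    ∃ E ∈ K, ∀ w ∈ W, w \ E ∈ B

theorem gen_seq (hk : kappa.IsRegular) (hcof : mu.ord.cof = kappa)
    (hbig : (2 : Cardinal.{u}) ^ kappa < mu) (s : kappa.ord.ToType → Cardinal.{u})
    (hs : StrictMono s) (hreg : ∀ i, (s i).IsRegular)
    (hsbig : ∀ i, (2 : Cardinal.{u}) ^ kappa < s i) (hlub : IsLUB (Set.range s) mu)
    (K : Set (Set kappa.ord.ToType)) (hK : IsKIdeal kappa K) (hJ : Jbd kappa.ord.ToType ⊆ K)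
    (hT : TCF s K lam) (Sp : Set Cardinal.{u})
    (hSp : ∀ th, InP kappa s (Jbd kappa.ord.ToType) th → th ∈ Sp) :
    ∃ J G : Set (Set kappa.ord.ToType), IsKIdeal kappa J ∧ TCF s J lam ∧
      Gens kappa G (Jbd kappa.ord.ToType) J ∧
      Cardinal.lift.{u + 1} #G ≤ Cardinal.lift.{u + 1} kappa + #(XS kappa mu lam Sp) ∧
      Cpt kappa (Jbd kappa.ord.ToType) J := by
  classical
  have hinf := hk.aleph0_le
  have hkm : kappa < mu := (Cardinal.cantor kappa).trans hbig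
  have hsmall : ∀ x, #(Set kappa.ord.ToType) < s x := by
    intro x
    refine lt_of_le_of_lt ?_ (hsbig x)
    rw [Cardinal.mk_set, mk_ord_toType]
  have hB0KI : IsKI kappa (Jbd kappa.ord.ToType) := (Jbd_ideal hk).isKI
  have hInP0 : InP kappa s (Jbd kappa.ord.ToType) lam := ⟨K, hK, hJ, hT⟩
  have hadm0 := Jst_adm hinf hreg hsmall hInP0
  obtain ⟨b, hb1, hb2⟩ := exists_gen hinf hreg hsmall hInP0
  set B : Set (Set kappa.ord.ToType) := Tr (Jbd kappa.ord.ToType) b with hB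
  have hBKI : IsKI kappa B := Tr_isKI hB0KI b
  have hB0B : Jbd kappa.ord.ToType ⊆ B := Tr_sub hB0KI b
  have hbc : bᶜ ∈ B := by
    show bᶜ ∩ b ∈ Jbd kappa.ord.ToType
    rw [Set.compl_inter_self]; exact hB0KI.empty hinf
  have hInP : InP kappa s B lam := by
    refine ⟨Jst kappa s (Jbd kappa.ord.ToType) lam, hadm0.1, ?_, hadm0.2.2⟩
    intro X hX
    refine hadm0.1.down _ _ ?_ (hadm0.1.isKI.union hinf (hadm0.2.1 hX) hb1)
    intro y hy
    by_cases h : y ∈ b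
    · exact Or.inl ⟨hy, h⟩
    · exact Or.inr h
  have hC : Core kappa s B lam :=
    ⟨hk, (by rw [mk_ord_toType]), hreg, hsbig, hBKI, hInP⟩
  have hmax : ∀ K : Set (Set kappa.ord.ToType), IsKIdeal kappa K → B ⊆ K →
      ¬ Dir s K (Order.succ lam) := by
    intro K hK hBK hd
    have h1 := hb2 K hK.isKI (hB0B.trans hBK) hd
    have h2 := hK.isKI.union hinf h1 (hBK hbc)
    rw [Set.union_compl_self] at h2
    exact hK.univ_notMem h2
  have hdir0 : Dir s (Jbd kappa.ord.ToType) (Order.succ mu) := by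
    refine dir_succ_of_bdd s _ hk hcof hkm hreg
      (fun x => (Cardinal.cantor kappa).trans (hsbig x)) hB0KI.down ?_
    intro c hc
    obtain ⟨i, hi⟩ := lub_ex hlub hc
    exact ⟨i, fun x hx => (hs.lt_iff_lt.1 (lt_of_le_of_lt (show s x ≤ c from hx) hi)).le⟩
  have hmu : ∀ th, InP kappa s B th → mu < th := by
    rintro th ⟨K, hK⟩
    by_contra hcon
    rw [not_lt] at hcon
    apply TCF.not_dir hK.1 hinf hK.2.2
    exact (hdir0.mono (hB0B.trans hK.2.1)).anti (Order.succ_le_succ hcon)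
  obtain ⟨Es, hEs1, hEs2, hEs3⟩ := exists_few hC hmax hmu Sp (by
    rintro th ⟨K1, hK1⟩ _
    exact hSp th ⟨K1, hK1.1, hB0B.trans hK1.2.1, hK1.2.2⟩)
  have hJadm := Jst_adm hinf hreg hsmall hC.lamP
  set K0 : Set (Set kappa.ord.ToType) := GenI kappa Es B with hK0
  have hK0KI : IsKI kappa K0 := GenI_isKI hk hBKI
  have hBK0 : B ⊆ K0 := GenI_sub hk Es B
  have hEK0 : Es ⊆ K0 := GenI_sub' hk hBKI
  have hK0J : K0 ⊆ Jst kappa s B lam := by
    rintro X ⟨S, h1, h2, Y, h3, h4⟩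
    refine hJadm.1.down _ _ h4 (hJadm.1.isKI.union hinf (hJadm.2.1 h3) ?_)
    exact hJadm.1.sUnion S (h1.trans hEs1) h2
  have hK0p : IsKIdeal kappa K0 := ⟨fun h => hJadm.1.univ_notMem (hK0J h), hK0KI.down,
    hK0KI.sUnion⟩
  have hnd := hmax K0 hK0p hBK0
  obtain ⟨sg, b', hs1, hs2, hs3, hs4, hs5, hs6⟩ := exists_tcf_trace hinf hK0KI hreg hsmall hnd
  have hadm : Adm kappa s B sg (Tr K0 b') := ⟨hs5, hBK0.trans (Tr_sub hK0KI b'), hs6⟩
  have hge : lam ≤ sg := by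
    by_contra hcon
    obtain ⟨E, hE1, hE2⟩ := hEs3 sg ⟨_, hadm⟩ (not_le.1 hcon)
    have h1 : Eᶜ ∈ Tr K0 b' := hE2 _ hadm
    have h2 : E ∈ Tr K0 b' := Tr_sub hK0KI b' (hEK0 hE1)
    have h3 := hs5.isKI.union hinf h2 h1
    rw [Set.union_compl_self] at h3
    exact hs5.univ_notMem h3
  have hle : sg ≤ lam := by
    by_contra hcon
    exact hnd (hs2.anti (Order.succ_le_of_lt (not_le.1 hcon)))
  have heq : sg = lam := le_antisymm hle hge
  subst heq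
  have hb'J : b'ᶜ ∈ Tr K0 b' := by
    show b'ᶜ ∩ b' ∈ K0
    rw [Set.compl_inter_self]; exact hK0KI.empty hinf
  have hbJ : bᶜ ∈ Tr K0 b' := Tr_sub hK0KI b' (hBK0 hbc)
  -- the least ideal over the restricted base
  have hB'KI : IsKI kappa (Tr B b') := Tr_isKI hBKI b'
  have hBB' : B ⊆ Tr B b' := Tr_sub hBKI b'
  have hadm' : Adm kappa s (Tr B b') sg (Tr K0 b') := ⟨hs5, fun X hX => hBK0 hX, hs6⟩
  have hC' : Core kappa s (Tr B b') sg :=
    ⟨hk, (by rw [mk_ord_toType]), hreg, hsbig, hB'KI, ⟨_, hadm'⟩⟩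
  have hJeq : ∀ X, X ∈ Tr K0 b' → X ∈ Jst kappa s (Tr B b') sg := by
    intro X hX K1 hK1
    have h1 : Adm kappa s B sg K1 := ⟨hK1.1, hBB'.trans hK1.2.1, hK1.2.2⟩
    have h2 : X ∩ b' ∈ K1 := hK0J hX K1 h1
    have h3 : b'ᶜ ∈ K1 := by
      apply hK1.2.1
      show b'ᶜ ∩ b' ∈ B
      rw [Set.compl_inter_self]; exact hBKI.empty hinf
    refine hK1.1.down _ _ ?_ (hK1.1.isKI.union hinf h2 h3)
    intro x hx
    by_cases h4 : x ∈ b'
    · exact Or.inl ⟨hx, h4⟩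
    · exact Or.inr h4
  have hcpt : Cpt kappa (Jbd kappa.ord.ToType) (Tr K0 b') := by
    intro W hWJ hW
    obtain ⟨E, hE1, hE2⟩ := compact_bdd hC'
      (fun K1 hK1 hBK1 => hmax K1 hK1 (hBB'.trans hBK1)) W (by
        intro W' hW' hc
        obtain ⟨z, hz1, hz2⟩ := hW W' hW' hc
        exact ⟨z, hJeq z hz1, fun w hw => hBB' (hB0B (hz2 w hw))⟩)
    have hEJ : E ∈ Tr K0 b' := hE1 _ hadm'
    refine ⟨E ∪ b'ᶜ ∪ bᶜ, hs5.isKI.union hinf (hs5.isKI.union hinf hEJ hb'J) hbJ,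
      fun w hw => ?_⟩
    have h1 : ((w \ E) ∩ b') ∩ b ∈ Jbd kappa.ord.ToType := hE2 w hw
    refine hB0KI.down _ _ ?_ h1
    rintro x ⟨hx1, hx2⟩
    simp only [Set.mem_union, Set.mem_compl_iff, not_or, not_not] at hx2
    exact ⟨⟨⟨hx1, hx2.1.1⟩, hx2.1.2⟩, hx2.2⟩
  refine ⟨Tr K0 b', Es ∪ {bᶜ, b'ᶜ}, hs5, hs6, ⟨?_, ?_, ?_⟩, ?_, hcpt⟩
  · rintro X (hX | hX | hX)
    · exact Tr_sub hK0KI b' (hEK0 hX)
    · rw [hX]; exact Tr_sub hK0KI b' (hBK0 hbc)
    · rw [Set.mem_singleton_iff] at hX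
      rw [hX]
      show b'ᶜ ∩ b' ∈ K0
      rw [Set.compl_inter_self]; exact hK0KI.empty hinf
  · exact (hB0B.trans hBK0).trans (Tr_sub hK0KI b')
  · rintro X ⟨S, h1, h2, Y, h3, h4⟩
    refine ⟨S ∪ {bᶜ, b'ᶜ}, Set.union_subset_union_left _ h1, ?_, Y ∩ b, h3, ?_⟩
    · refine lt_of_le_of_lt (Cardinal.mk_union_le _ _) ?_
      refine Cardinal.add_lt_of_lt hinf h2 ?_
      refine lt_of_lt_of_le ?_ hinf
      exact (Set.toFinite _).lt_aleph0
    · intro x hx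
      by_cases h5 : x ∈ b'
      · rcases h4 ⟨hx, h5⟩ with h6 | ⟨Z, hZ, h6⟩
        · by_cases h7 : x ∈ b
          · exact Or.inl ⟨h6, h7⟩
          · exact Or.inr ⟨bᶜ, Or.inr (Or.inl rfl), h7⟩
        · exact Or.inr ⟨Z, Or.inl hZ, h6⟩
      · exact Or.inr ⟨b'ᶜ, Or.inr (Or.inr rfl), h5⟩
  · have hinf' : ℵ₀ ≤ Cardinal.lift.{u + 1} kappa := by
      rw [aleph0_le_lift]; exact hinf
    have h1 : #(Es ∪ {bᶜ, b'ᶜ} : Set (Set kappa.ord.ToType)) ≤ #Es + ℵ₀ := by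
      refine (Cardinal.mk_union_le _ _).trans (add_le_add le_rfl ?_)
      exact (Set.toFinite _).lt_aleph0.le
    have h2 := Cardinal.lift_le.{u + 1}.2 h1
    rw [Cardinal.lift_add, Cardinal.lift_aleph0] at h2
    refine h2.trans ((add_le_add hEs2 hinf').trans ?_)
    rw [add_right_comm, Cardinal.add_eq_self hinf']

end

end Pool.Agent.PcfInc
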