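import Pool.Agent.PcfInc.Inc1
import Pool.Agent.PcfInc.GenSeq

/-!
Representations of order type kappa with a compact ideal generated by few sets.
-/

universe u

open Cardinal Ordinal Set Pool.Agent.Helper6.Pcf

namespace Pool.Agent.PcfInc

theorem main_inc (kappa mu : Cardinal.{u}) (hk : kappa.IsRegular) (hcof : mu.ord.cof = kappa)
    (hmu : (2 : Cardinal.{u}) ^ kappa < mu) (D : Type u) (hD : #D ≤ kappa) (hne : Nonempty D)
    (lam : D → Cardinal.{u}) (I : D → Type u) (L : ∀ d, I d → Cardinal.{u})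
    (J : ∀ d, Set (Set (I d))) (hrep : ∀ d, IsRep kappa mu (lam d) (L d) (J d)) :
    ∃ s : kappa.ord.ToType → Cardinal.{u}, StrictMono s ∧
      (∀ i, ∃ d, s i ∈ Set.range (L d)) ∧ IsLUB (Set.range s) mu ∧
      ∀ d, ∃ K G : Set (Set kappa.ord.ToType), IsKIdeal kappa K ∧ TCF s K (lam d) ∧
        Gens kappa G (Jbd kappa.ord.ToType) K ∧
        Cardinal.lift.{u + 1} #G ≤ Cardinal.lift.{u + 1} kappa + #(XS kappa mu (lam d)
          {th | InP kappa s (Jbd kappa.ord.ToType) th}) ∧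
        Cpt kappa (Jbd kappa.ord.ToType) K := by
  choose sq Jq h1 h2 h3 h4 h5 h6 using fun d => exists_inc hk hcof hmu (L d) (J d) (hrep d)
  have hreg : ∀ d i, (sq d i).IsRegular := by
    intro d i
    obtain ⟨⟨x, hx⟩, _⟩ := h2 d i
    rw [← hx]
    exact (hrep d).reg x
  have htau : ∀ d, (lam d).IsRegular := fun d => (h6 d).1
  obtain ⟨s, hs1, hs2, hs3, hs4, hs5, hs6⟩ := union_seq hk hcof hmu hD hne lam htau sq Jq
    (fun d => ⟨h1 d, hreg d, h3 d, h4 d, h5 d, h6 d⟩)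
  refine ⟨s, hs1, fun i => ?_, hs5, fun d => ?_⟩
  · obtain ⟨d, j, hj⟩ := hs2 i
    obtain ⟨⟨x, hx⟩, _⟩ := h2 d j
    exact ⟨d, x, by rw [hx, hj]⟩
  · obtain ⟨K, hK1, hK2, hK3⟩ := hs6 (lam d) {Y | d ∉ Y} (point_ideal hk d)
      (TCF_point lam htau d)
    obtain ⟨K', G, a1, a2, a3, a4, a5⟩ := gen_seq hk hcof hmu s hs1 hs3 hs4 hs5 K hK1 hK2 hK3
      {th | InP kappa s (Jbd kappa.ord.ToType) th} (fun _ h => h)
    exact ⟨K', G, a1, a2, a3, a4, a5⟩

end Pool.Agent.PcfInc
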