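import Pool.Agent.PcfInc.Enum

/-!
Many increasing sequences merged into one, with the inclusion maps.
-/

universe u

open Cardinal Ordinal Set Pool.Agent.Helper6.Pcf

namespace Pool.Agent.PcfInc

section

variable {kappa mu lam : Cardinal.{u}}

theorem union_map (hk : kappa.IsRegular) (hcof : mu.ord.cof = kappa)
    (hbig : (2 : Cardinal.{u}) ^ kappa < mu) {D : Type u} (hD : #D ≤ kappa) (hne : Nonempty D)
    (tau : D → Cardinal.{u}) (htau : ∀ d, (tau d).IsRegular)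
    (sq : D → kappa.ord.ToType → Cardinal.{u}) (J : D → Set (Set kappa.ord.ToType))
    (h : ∀ d, StrictMono (sq d) ∧ (∀ i, (sq d i).IsRegular) ∧ IsLUB (Set.range (sq d)) mu ∧
      IsKIdeal kappa (J d) ∧ Jbd kappa.ord.ToType ⊆ J d ∧ TCF (sq d) (J d) (tau d)) :
    ∃ (s : kappa.ord.ToType → Cardinal.{u}) (e : D → kappa.ord.ToType → kappa.ord.ToType),
      StrictMono s ∧ (∀ i, ∃ d j, s i = sq d j) ∧
      (∀ i, (s i).IsRegular) ∧
      (∀ i, (2 : Cardinal.{u}) ^ kappa < s i) ∧ IsLUB (Set.range s) mu ∧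
      (∀ d, ∀ X ∈ Jbd kappa.ord.ToType, {i | e d i ∈ X} ∈ J d) ∧
      ∀ (lam : Cardinal.{u}) (JT : Set (Set D)), IsKIdeal kappa JT → TCF tau JT lam →
        IsKIdeal kappa (CompI Set.univ JT J e) ∧
          Jbd kappa.ord.ToType ⊆ CompI Set.univ JT J e ∧
          TCF s (CompI Set.univ JT J e) lam := by
  classical
  have hinf := hk.aleph0_le
  obtain ⟨d0⟩ := hne
  obtain ⟨j⟩ : Nonempty (D ↪ kappa.ord.ToType) := by
    rw [← Cardinal.le_def, mk_ord_toType]; exact hD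
  let φ : kappa.ord.ToType → Cardinal.{u} := sq d0
  have hφ : StrictMono φ := (h d0).1
  have hφlt : ∀ i, φ i < mu := fun i => lub_lt hk hφ (h d0).2.2.1 i
  have hφex : ∀ c, c < mu → ∃ i, c < φ i := fun c hc => lub_ex (h d0).2.2.1 hc
  let I : Type u := {p : D × kappa.ord.ToType //
    φ (j p.1) < sq p.1 p.2 ∧ (2 : Cardinal.{u}) ^ kappa < sq p.1 p.2}
  let L : I → Cardinal.{u} := fun p => sq p.1.1 p.1.2
  have hLlt : ∀ p, L p < mu := by
    rintro ⟨⟨d, i⟩, _⟩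
    exact lub_lt hk (h d).1 (h d).2.2.1 i
  -- members of one sequence
  have hcon : ∀ d, ∀ c, c < mu → ∃ i0, ∀ i, sq d i ≤ c → i < i0 := by
    intro d c hc
    obtain ⟨i0, hi0⟩ := lub_ex (h d).2.2.1 hc
    exact ⟨i0, fun i hi => (h d).1.lt_iff_lt.1 (lt_of_le_of_lt hi hi0)⟩
  have hLub : ∀ c, c < mu → ∃ p, c < L p := by
    intro c hc
    obtain ⟨i, hi⟩ := lub_ex (h d0).2.2.1 (max_lt (max_lt hc (hφlt (j d0))) hbig)
    refine ⟨⟨(d0, i), ?_, ?_⟩, ?_⟩
    · exact lt_of_le_of_lt ((le_max_right _ _).trans (le_max_left _ _)) hi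
    · exact lt_of_le_of_lt (le_max_right _ _) hi
    · exact lt_of_le_of_lt ((le_max_left _ _).trans (le_max_left _ _)) hi
  have hLs : ∀ c, c < mu → #{x | L x ≤ c} < kappa := by
    intro c hc
    obtain ⟨i0, hi0⟩ := hφex c hc
    have h1 : #{d | j d < i0} < kappa := by
      refine lt_of_le_of_lt ?_ (mk_Iio_toType_ord_lt i0)
      refine Cardinal.mk_le_of_injective
        (f := fun d : {d | j d < i0} => (⟨j d.1, d.2⟩ : Set.Iio i0)) ?_
      intro a b hab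
      exact Subtype.ext (j.injective (congrArg Subtype.val hab))
    have h2 : ({x | L x ≤ c} : Set I) ⊆
        ⋃ d : {d | j d < i0}, {x : I | x.1.1 = d.1 ∧ L x ≤ c} := by
      intro x hx
      have hx' : L x ≤ c := hx
      refine Set.mem_iUnion.2 ⟨⟨x.1.1, ?_⟩, rfl, hx⟩
      have h3 : φ (j x.1.1) < φ i0 := (x.2.1.trans_le hx').trans hi0
      exact hφ.lt_iff_lt.1 h3
    refine lt_of_le_of_lt (Cardinal.mk_le_mk_of_subset h2) ?_
    rw [Cardinal.card_iUnion_lt_iff_forall_of_isRegular hk h1]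
    rintro ⟨d, hd⟩
    obtain ⟨i1, hi1⟩ := hcon d c hc
    refine lt_of_le_of_lt ?_ (mk_Iio_toType_ord_lt i1)
    refine Cardinal.mk_le_of_injective
      (f := fun x : {x : I | x.1.1 = d ∧ L x ≤ c} => (⟨x.1.1.2, hi1 _ (by
        have h3 : sq x.1.1.1 x.1.1.2 ≤ c := x.2.2
        have h4 : x.1.1.1 = d := x.2.1
        exact (congrArg (fun z => sq z x.1.1.2) h4).ge.trans h3)⟩ : Set.Iio i1)) ?_
    rintro ⟨⟨⟨d1, a⟩, ha⟩, ha1, ha2⟩ ⟨⟨⟨d2, b⟩, hb⟩, hb1, hb2⟩ hab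
    have h3 : a = b := congrArg Subtype.val hab
    have h4 : d1 = d := ha1
    have h5 : d2 = d := hb1
    subst h3 h4 h5
    rfl
  obtain ⟨s, hs1, hs2, hs3⟩ := exists_enum hcof L hLlt hLub hLs
  have hsreg : ∀ i, (s i).IsRegular := by
    intro i
    obtain ⟨⟨⟨d, a⟩, h'⟩, hp⟩ := hs2 i
    rw [← hp]
    exact (h d).2.1 a
  have hsbig : ∀ i, (2 : Cardinal.{u}) ^ kappa < s i := by
    intro i
    obtain ⟨⟨⟨d, a⟩, h', h''⟩, hp⟩ := hs2 i
    rw [← hp]
    exact h''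
  have hslub : IsLUB (Set.range s) mu := by
    refine ⟨?_, ?_⟩
    · rintro _ ⟨i, rfl⟩
      obtain ⟨p, hp⟩ := hs2 i
      rw [← hp]
      exact (hLlt p).le
    · intro b hb
      by_contra hc
      rw [not_le] at hc
      obtain ⟨p, hp⟩ := hLub b hc
      obtain ⟨i, hi⟩ := hs3 p
      have h1 : s i ≤ b := hb ⟨i, rfl⟩
      rw [hi] at h1
      exact absurd hp (not_lt.2 h1)
  have hsmem : ∀ i, ∃ d j, s i = sq d j := by
    intro i
    obtain ⟨⟨⟨d, a⟩, h'⟩, hp⟩ := hs2 i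
    exact ⟨d, a, hp.symm⟩
  -- the map
  choose q hq using hs3
  let i00 : kappa.ord.ToType := ToType.mk ⟨0, hk.ord_pos⟩
  let e : ∀ d : D, kappa.ord.ToType → kappa.ord.ToType := fun d i =>
    if hp : φ (j d) < sq d i ∧ (2 : Cardinal.{u}) ^ kappa < sq d i then
      q ⟨(d, i), hp⟩ else i00
  have he : ∀ d, {i | ¬ (s (e d i) = sq d i ∧ kappa < sq d i)} ∈ J d := by
    intro d
    obtain ⟨i0, hi0⟩ := hcon d (max (φ (j d)) (2 ^ kappa)) (max_lt (hφlt _) hbig)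
    refine (h d).2.2.2.1.down _ _ ?_ ((h d).2.2.2.2.1 (show Set.Iio i0 ∈ _ from
      ⟨i0, fun x hx => (show x < i0 from hx).le⟩))
    intro i hi
    by_contra hcon2
    apply hi
    have h1 : ¬ sq d i ≤ max (φ (j d)) (2 ^ kappa) := fun h => hcon2 (hi0 i h)
    rw [not_le] at h1
    have hp : φ (j d) < sq d i ∧ (2 : Cardinal.{u}) ^ kappa < sq d i :=
      ⟨lt_of_le_of_lt (le_max_left _ _) h1, lt_of_le_of_lt (le_max_right _ _) h1⟩
    refine ⟨?_, (Cardinal.cantor kappa).trans hp.2⟩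
    have h2 : e d i = q ⟨(d, i), hp⟩ := dif_pos hp
    rw [h2, hq]
  have hbb : ∀ d, ∀ X ∈ Jbd kappa.ord.ToType, {i | e d i ∈ X} ∈ J d := by
    rintro d X ⟨b, hb⟩
    obtain ⟨i0, hi0⟩ := hcon d (s b) (lub_lt hk hs1 hslub b)
    refine (h d).2.2.2.1.down _ _ ?_ ((h d).2.2.2.1.isKI.union hinf (he d)
      ((h d).2.2.2.2.1 (show Set.Iio i0 ∈ _ from ⟨i0, fun x hx => (show x < i0 from hx).le⟩)))
    intro i hi
    by_cases h4 : s (e d i) = sq d i ∧ kappa < sq d i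
    · right
      apply hi0
      rw [← h4.1]
      exact hs1.monotone (hb _ hi)
    · left; exact h4
  refine ⟨s, e, hs1, hsmem, hsreg, hsbig, hslub, hbb, ?_⟩
  intro lam JT hJT hTT
  have hM : (Set.univ : Set D)ᶜ ∈ JT := by
    rw [Set.compl_univ]
    exact hJT.isKI.empty hinf
  refine ⟨CompI_ideal hk hM hJT (fun d _ => (h d).2.2.2.1), ?_,
    CompI_tcf hk hD (fun _ => by rw [mk_ord_toType]) s hsreg tau htau Set.univ JT hM hJT hTT sq J
      (fun d _ => (h d).2.2.2.1) (fun d _ => (h d).2.2.2.2.2) e (fun d _ => he d)⟩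
  intro X hX
  rw [mem_CompI]
  have h3 : {t | t ∈ (Set.univ : Set D) ∧ {i | e t i ∈ X} ∉ J t} = (∅ : Set D) := by
    ext d
    simp only [Set.mem_ofPred_eq, Set.mem_empty_iff_false, iff_false, not_and, not_not]
    intro _
    exact hbb d X hX
  rw [h3]
  exact hJT.isKI.empty hinf

end

end Pool.Agent.PcfInc
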