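import Pool.Agent.PcfInc.Compact

/-!
A positive set almost disjoint from kappa many given sets.
-/

universe u

open Cardinal Ordinal Set Pool.Agent.Helper6.Pcf

namespace Pool.Agent.PcfInc

section

variable {I : Type u} {kappa lam : Cardinal.{u}} {L : I → Cardinal.{u}} {B : Set (Set I)}

theorem exists_pos (hC : Core kappa L B lam)
    (hmax : ∀ K : Set (Set I), IsKIdeal kappa K → B ⊆ K → ¬ Dir L K (Order.succ lam))
    (V : kappa.ord.ToType → Set I)
    (hps : ∀ E ∈ Jst kappa L B lam, ∃ x : Set I, x ∉ B ∧ x ∩ E ∈ B ∧ ∀ i, x ∩ V i ∈ B) :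
    ∃ x : Set I, x ∉ Jst kappa L B lam ∧ ∀ i, x ∩ V i ∈ B := by
  classical
  by_contra hcon
  push Not at hcon
  have hW : ∀ x : Set I, (∀ i, x ∩ V i ∈ B) → x ∈ Jst kappa L B lam := by
    intro x hx
    by_contra h
    obtain ⟨i, hi⟩ := hcon x h
    exact hi (hx i)
  have hinf := hC.reg.aleph0_le
  obtain ⟨E, hE, hE2⟩ := compact_bdd hC hmax {x : Set I | ∀ i, x ∩ V i ∈ B} (by
    intro W' hW' hcard
    obtain ⟨j⟩ : Nonempty (W' ↪ kappa.ord.ToType) := by
      rw [← Cardinal.le_def, mk_ord_toType]; exact hcard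
    refine ⟨⋃ w : W', (w.1 \ ⋃ i : Set.Iio (j w), V i.1), hW _ ?_, ?_⟩
    · intro i
      have h1 : (⋃ w : {w : W' // j w ≤ i}, w.1.1 ∩ V i) ∈ B := by
        refine hC.base.iUnion (T := {w : W' // j w ≤ i}) _ ?_ ?_
        · refine lt_of_le_of_lt ?_ (pIntSelf_Iic hC.reg i)
          refine Cardinal.mk_le_of_injective
            (f := fun w : {w : W' // j w ≤ i} => (⟨j w.1, w.2⟩ : Set.Iic i)) ?_
          intro a b hab
          exact Subtype.ext (j.injective (congrArg Subtype.val hab))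
        · rintro ⟨w, _⟩
          exact hW' w.2 i
      refine hC.base.down _ _ ?_ h1
      rintro x ⟨hx, hxi⟩
      obtain ⟨w, hw⟩ := Set.mem_iUnion.1 hx
      refine Set.mem_iUnion.2 ⟨⟨w, ?_⟩, hw.1, hxi⟩
      by_contra hlt
      exact hw.2 (Set.mem_iUnion.2 ⟨⟨i, not_le.1 hlt⟩, hxi⟩)
    · intro w hw
      have h1 : (⋃ i : Set.Iio (j ⟨w, hw⟩), w ∩ V i.1) ∈ B :=
        hC.base.iUnion _ (mk_Iio_toType_ord_lt _) (fun i => hW' hw i.1)
      refine hC.base.down _ _ ?_ h1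
      rintro x ⟨hx, hnx⟩
      by_contra hcon2
      apply hnx
      refine Set.mem_iUnion.2 ⟨⟨w, hw⟩, hx, ?_⟩
      intro h2
      obtain ⟨i, hi⟩ := Set.mem_iUnion.1 h2
      exact hcon2 (Set.mem_iUnion.2 ⟨i, hx, hi⟩))
  obtain ⟨x, hx1, hx2, hx3⟩ := hps E hE
  apply hx1
  refine hC.base.down _ _ ?_ (hC.base.union hinf hx2 (hE2 x hx3))
  intro y hy
  by_cases h : y ∈ E
  · exact Or.inl ⟨hy, h⟩
  · exact Or.inr ⟨hy, h⟩

/-- restriction of an ideal to a positive set -/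
theorem restrict_ideal {K : Set (Set I)} (hK : IsKIdeal kappa K) {G : Set I} (hG : G ∉ K) :
    IsKIdeal kappa {X : Set G | Subtype.val '' X ∈ K} := by
  refine ⟨?_, ?_, ?_⟩
  · intro h
    apply hG
    have h1 : Subtype.val '' (Set.univ : Set G) ∈ K := h
    rwa [Set.image_univ, Subtype.range_coe] at h1
  · intro X Y hXY hY
    exact hK.down _ _ (Set.image_mono hXY) hY
  · intro S hS hc
    have h1 : (⋃ X : S, Subtype.val '' X.1) ∈ K := hK.isKI.iUnion _ hc (fun X => hS X.2)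
    refine hK.down _ _ ?_ h1
    rintro _ ⟨x, ⟨X, hX, hx⟩, rfl⟩
    exact Set.mem_iUnion.2 ⟨⟨X, hX⟩, x, hx, rfl⟩

theorem restrict_tcf {K : Set (Set I)} (hK : IsKIdeal kappa K) (hreg : ∀ x, (L x).IsRegular)
    (hT : TCF L K lam) (G : Set I) :
    TCF (fun x : G => L x) {X : Set G | Subtype.val '' X ∈ K} lam := by
  classical
  obtain ⟨hlam, F, hF1, hF2, hF3⟩ := hT
  refine ⟨hlam, fun a x => F a x, fun a ha x => hF1 a ha x, fun a b hab hb => ?_, fun g hg => ?_⟩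
  · refine hK.down _ _ ?_ (hF2 a b hab hb)
    rintro _ ⟨x, hx, rfl⟩
    exact hx
  · obtain ⟨a, ha, hlt⟩ := hF3 (fun x => if h : x ∈ G then g ⟨x, h⟩ else 0) (by
      intro x
      by_cases h : x ∈ G
      · simp only [h, dite_true]; exact hg ⟨x, h⟩
      · simp only [h, dite_false]; exact (hreg x).ord_pos)
    refine ⟨a, ha, hK.down _ _ ?_ hlt⟩
    rintro _ ⟨x, hx, rfl⟩
    show F a x ≤ if h : x.1 ∈ G then g ⟨x.1, h⟩ else 0
    have h1 : x.1 ∈ G := x.2
    simp only [h1, dite_true]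
    exact hx

end

end Pool.Agent.PcfInc
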