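import Pool.Agent.PcfInc.Pos

/-!
A strictly increasing subsequence of a sequence whose product has a true cofinality above all its
members, modulo bounded sets.
-/

universe u

open Cardinal Ordinal Set Pool.Agent.Helper6.Pcf

namespace Pool.Agent.PcfInc

section

variable {kappa lam : Cardinal.{u}}

theorem TCF_mono {I : Type u} {L : I → Cardinal.{u}} {K K' : Set (Set I)} (h : K ⊆ K')
    (ht : TCF L K lam) : TCF L K' lam := by
  obtain ⟨h1, F, h2, h3, h4⟩ := ht
  refine ⟨h1, F, h2, fun a b hab hb => h (h3 a b hab hb), fun g hg => ?_⟩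
  obtain ⟨a, ha, h5⟩ := h4 g hg
  exact ⟨a, ha, h h5⟩

theorem TCF_unique {I : Type u} {L : I → Cardinal.{u}} {K : Set (Set I)} {lam' : Cardinal.{u}}
    (hk : ℵ₀ ≤ kappa) (hK : IsKIdeal kappa K) (h : TCF L K lam) (h' : TCF L K lam') :
    lam = lam' := by
  apply le_antisymm
  · by_contra hcon
    exact TCF.not_dir hK hk h' ((h.dir hK.isKI hk).anti (Order.succ_le_of_lt (not_le.1 hcon)))
  · by_contra hcon
    exact TCF.not_dir hK hk h ((h'.dir hK.isKI hk).anti (Order.succ_le_of_lt (not_le.1 hcon)))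

theorem small_bdd (hk : kappa.IsRegular) (X : Set kappa.ord.ToType) (hX : #X < kappa) :
    X ∈ Jbd kappa.ord.ToType := by
  have h1 : (⋃ x : X, ({x.1} : Set kappa.ord.ToType)) ∈ Jbd kappa.ord.ToType := by
    refine (Jbd_ideal hk).isKI.iUnion _ hX (fun x => ⟨x.1, ?_⟩)
    intro y hy
    rw [Set.mem_singleton_iff] at hy
    rw [hy]
  refine (Jbd_ideal hk).down _ _ ?_ h1
  intro x hx
  exact Set.mem_iUnion.2 ⟨⟨x, hx⟩, rfl⟩

theorem bdd_small (hk : kappa.IsRegular) (X : Set kappa.ord.ToType)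
    (hX : X ∈ Jbd kappa.ord.ToType) : #X < kappa := by
  obtain ⟨b, hb⟩ := hX
  exact lt_of_le_of_lt (Cardinal.mk_le_mk_of_subset (t := Set.Iic b) hb) (pIntSelf_Iic hk b)

theorem inc_of_seq (hk : kappa.IsRegular) (f : kappa.ord.ToType → Cardinal.{u})
    (hreg : ∀ t, (f t).IsRegular) (hbig : ∀ t, kappa < f t) (hlt : ∀ t, f t < lam)
    (b : Set kappa.ord.ToType) (hK : IsKIdeal kappa (Tr (Jbd kappa.ord.ToType) b))
    (hT : TCF f (Tr (Jbd kappa.ord.ToType) b) lam) :
    ∃ (chi : Cardinal.{u}) (s : kappa.ord.ToType → Cardinal.{u}), StrictMono s ∧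
      (∀ i, ∃ j, s i = f j) ∧ IsLUB (Set.range s) chi ∧ chi < lam ∧ chi.ord.cof = kappa ∧
      TCF s (Jbd kappa.ord.ToType) lam := by
  classical
  have hinf := hk.aleph0_le
  have hbd := Jbd_ideal hk
  have hcardT : #(kappa.ord.ToType) = kappa := mk_ord_toType _
  set P : Set Cardinal.{u} := {c | {j | j ∈ b ∧ f j < c} ∉ Jbd kappa.ord.ToType} with hP
  have hlamP : lam ∈ P := by
    intro h
    apply hK.univ_notMem
    show Set.univ ∩ b ∈ Jbd kappa.ord.ToType
    refine hbd.down _ _ ?_ h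
    rintro j ⟨_, hj⟩
    exact ⟨hj, hlt j⟩
  have hPne : P.Nonempty := ⟨lam, hlamP⟩
  set chi := sInf P with hchi
  have hchiP : {j | j ∈ b ∧ f j < chi} ∉ Jbd kappa.ord.ToType := csInf_mem hPne
  have hchile : chi ≤ lam := csInf_le' hlamP
  have hlow0 : ∀ c, c < chi → {j | j ∈ b ∧ f j < c} ∈ Jbd kappa.ord.ToType := by
    intro c hc
    by_contra h
    exact absurd (csInf_le' (s := P) h) (not_le.mpr hc)
  have hval : ∀ c, c < lam → {j | j ∈ b ∧ f j = c} ∈ Jbd kappa.ord.ToType := by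
    intro c hc
    by_contra h
    set b2 : Set kappa.ord.ToType := {j | j ∈ b ∧ f j = c} with hb2
    have hb2K : b2 ∉ Tr (Jbd kappa.ord.ToType) b := by
      intro h1
      apply h
      have h2 : b2 ∩ b ∈ Jbd kappa.ord.ToType := h1
      refine hbd.down _ _ ?_ h2
      intro j hj
      exact ⟨hj, hj.1⟩
    have h1 := restrict_tcf hK hreg hT b2
    have h2 := restrict_ideal hK hb2K
    have h3 : (fun x : b2 => f x) = fun _ => c := by
      funext x
      exact x.2.2
    rw [h3] at h1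
    have hne : Nonempty b2 := by
      by_contra hne
      rw [not_nonempty_iff] at hne
      apply h
      apply small_bdd hk
      rw [Cardinal.mk_eq_zero]
      exact lt_of_lt_of_le aleph0_pos hinf
    obtain ⟨x⟩ := hne
    have hcreg : c.IsRegular := by
      have := hreg x.1
      rwa [x.2.2] at this
    have hkc : kappa < c := by
      have := hbig x.1
      rwa [x.2.2] at this
    have h4 : TCF (fun _ : b2 => c) {X : Set b2 | Subtype.val '' X ∈ Tr (Jbd kappa.ord.ToType) b}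
        c :=
      TCF_const hk hcreg (lt_of_le_of_lt ((Cardinal.mk_set_le _).trans hcardT.le) hkc) h2
    exact absurd (TCF_unique hinf h2 h4 h1) hc.ne
  have hlow : ∀ c, c < chi → {j | j ∈ b ∧ f j ≤ c} ∈ Jbd kappa.ord.ToType := by
    intro c hc
    refine hbd.down _ _ ?_ (hbd.isKI.union hinf (hlow0 c hc) (hval c (hc.trans_le hchile)))
    rintro j ⟨hj, hjc⟩
    rcases hjc.lt_or_eq with h | h
    · exact Or.inl ⟨hj, h⟩
    · exact Or.inr ⟨hj, h⟩
  set b1 : Set kappa.ord.ToType := {j | j ∈ b ∧ f j < chi} with hb1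
  have hb1K : b1 ∉ Tr (Jbd kappa.ord.ToType) b := by
    intro h1
    apply hchiP
    have h2 : b1 ∩ b ∈ Jbd kappa.ord.ToType := h1
    refine hbd.down _ _ ?_ h2
    intro j hj
    exact ⟨hj, hj.1⟩
  let L1 : b1 → Cardinal.{u} := fun j => f j
  let K1 : Set (Set b1) := {X | Subtype.val '' X ∈ Tr (Jbd kappa.ord.ToType) b}
  have hK1 : IsKIdeal kappa K1 := restrict_ideal hK hb1K
  have hT1 : TCF L1 K1 lam := restrict_tcf hK hreg hT b1
  have hK1b : ∀ X : Set b1, X ∈ K1 ↔ Subtype.val '' X ∈ Jbd kappa.ord.ToType := by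
    intro X
    constructor
    · intro h
      have h1 : (Subtype.val '' X) ∩ b ∈ Jbd kappa.ord.ToType := h
      refine hbd.down _ _ ?_ h1
      rintro _ ⟨x, hx, rfl⟩
      exact ⟨⟨x, hx, rfl⟩, x.2.1⟩
    · intro h
      exact Tr_sub hbd.isKI b h
  have hcardb1 : #b1 ≤ kappa := (Cardinal.mk_set_le _).trans hcardT.le
  have hlt1 : ∀ y, L1 y < chi := fun y => y.2.2
  have hub1 : ∀ c, c < chi → ∃ y, c < L1 y := by
    intro c hc
    by_contra hcon
    push Not at hcon
    apply hchiP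
    refine hbd.down _ _ ?_ (hlow c hc)
    intro j hj
    exact ⟨hj.1, hcon ⟨j, hj⟩⟩
  have hsm1 : ∀ c, c < chi → #{y | L1 y ≤ c} < kappa := by
    intro c hc
    refine lt_of_le_of_lt ?_ (bdd_small hk _ (hlow c hc))
    refine Cardinal.mk_le_of_injective
      (f := fun y : {y | L1 y ≤ c} => (⟨y.1.1, y.1.2.1, y.2⟩ :
        {j | j ∈ b ∧ f j ≤ c})) ?_
    intro a a' haa
    have h3 : (a.1.1 : kappa.ord.ToType) = a'.1.1 :=
      congrArg (fun z : {j | j ∈ b ∧ f j ≤ c} => (z : kappa.ord.ToType)) haa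
    apply Subtype.ext
    exact Subtype.ext h3
  have hcof : chi.ord.cof = kappa := by
    apply le_antisymm
    · by_contra hcon
      rw [not_le] at hcon
      have hsup := Cardinal.iSup_lt_of_lt_cof_ord (hcardb1.trans_lt hcon) hlt1
      obtain ⟨y, hy⟩ := hub1 _ hsup
      exact absurd (le_ciSup (f := L1) Cardinal.bddAbove_of_small y) (not_le.mpr hy)
    · by_contra hcon
      rw [not_le] at hcon
      obtain ⟨S, c, hS, hc1, hc2⟩ := dirSucc_cofinal (mu := chi) rfl
      apply hchiP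
      have h1 : (⋃ t : S, {j | j ∈ b ∧ f j ≤ (c t).card}) ∈ Jbd kappa.ord.ToType := by
        refine hbd.isKI.iUnion _ (by rw [hS]; exact hcon) fun t => ?_
        exact hlow _ (Cardinal.lt_ord.1 (hc1 t))
      refine hbd.down _ _ ?_ h1
      rintro j ⟨hj1, hj2⟩
      obtain ⟨t, ht⟩ := hc2 (f j).ord (Cardinal.ord_lt_ord.2 hj2)
      refine Set.mem_iUnion.2 ⟨t, hj1, ?_⟩
      have h5 := Ordinal.card_le_card ht
      rwa [Cardinal.card_ord] at h5
  have hchilt : chi < lam := by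
    refine lt_of_le_of_ne hchile fun heq => ?_
    have hlamreg : lam.IsRegular := hT.1
    rw [heq, hlamreg.cof_ord] at hcof
    have hne : Nonempty kappa.ord.ToType := ⟨ToType.mk ⟨0, hk.ord_pos⟩⟩
    obtain ⟨j⟩ := hne
    exact absurd ((hbig j).trans (hlt j)) (by rw [hcof]; exact lt_irrefl _)
  obtain ⟨s, hs1, hs2, hs3⟩ := exists_enum hcof L1 hlt1 hub1 hsm1
  choose e he using hs3
  have hsreg : ∀ i, (s i).IsRegular := by
    intro i
    obtain ⟨y, hy⟩ := hs2 i
    rw [← hy]; exact hreg y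
  have hlub : IsLUB (Set.range s) chi := by
    refine ⟨?_, ?_⟩
    · rintro _ ⟨i, rfl⟩
      obtain ⟨y, hy⟩ := hs2 i
      rw [← hy]
      exact (hlt1 y).le
    · intro c hc
      by_contra hcon
      rw [not_le] at hcon
      obtain ⟨y, hy⟩ := hub1 c hcon
      have h1 : s (e y) ≤ c := hc ⟨e y, rfl⟩
      rw [he] at h1
      exact absurd hy (not_lt.2 h1)
  have hpt : IsKIdeal kappa {Y : Set PUnit.{u + 1} | PUnit.unit ∉ Y} := point_ideal hk _
  have hlam : lam.IsRegular := hT.1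
  have hTp : TCF (fun _ : PUnit.{u + 1} => lam) {Y : Set PUnit.{u + 1} | PUnit.unit ∉ Y} lam :=
    TCF_point (fun _ => lam) (fun _ => hlam) PUnit.unit
  have hMp : (Set.univ : Set PUnit.{u + 1})ᶜ ∈ {Y : Set PUnit.{u + 1} | PUnit.unit ∉ Y} := by
    rw [Set.compl_univ]; exact Set.notMem_empty _
  have hunit : #(PUnit.{u + 1}) ≤ kappa := by
    rw [Cardinal.mk_punit]
    exact Cardinal.one_le_aleph0.trans hinf
  have hen : {y | ¬ (s (e y) = L1 y ∧ kappa < L1 y)} ∈ K1 := by
    have : {y | ¬ (s (e y) = L1 y ∧ kappa < L1 y)} = (∅ : Set b1) := by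
      ext y
      simp only [Set.mem_ofPred_eq, Set.mem_empty_iff_false, iff_false, not_not]
      exact ⟨he y, hbig y⟩
    rw [this]
    exact hK1.isKI.empty hinf
  have hfin := CompI_tcf hk hunit (fun _ => hcardb1) s hsreg (fun _ => lam) (fun _ => hlam)
    Set.univ _ hMp hpt hTp (fun _ => L1) (fun _ => K1) (fun _ _ => hK1) (fun _ _ => hT1)
    (fun _ => e) (fun _ _ => hen)
  refine ⟨chi, s, hs1, fun i => ?_, hlub, hchilt, hcof, TCF_mono ?_ hfin⟩
  · obtain ⟨y, hy⟩ := hs2 i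
    exact ⟨y.1, hy.symm⟩
  · intro X hX
    rw [mem_CompI] at hX
    have h1 : {i | e i ∈ X} ∈ K1 := by
      by_contra h2
      exact hX ⟨Set.mem_univ _, h2⟩
    apply small_bdd hk
    have h2 : #{i | e i ∈ X} < kappa := by
      have h3 := bdd_small hk _ ((hK1b _).1 h1)
      rwa [Cardinal.mk_image_eq Subtype.val_injective] at h3
    refine lt_of_le_of_lt (Cardinal.mk_le_mk_of_subset (t := e '' {i | e i ∈ X}) ?_)
      (lt_of_le_of_lt Cardinal.mk_image_le h2)
    intro i hi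
    obtain ⟨y, hy⟩ := hs2 i
    have h4 : e y = i := hs1.injective (by rw [he, hy])
    exact ⟨y, by rw [← h4] at hi; exact hi, h4⟩

end

end Pool.Agent.PcfInc
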