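import Pool.Agent.PcfInc.Core2

/-!
Countable case: every member of the spectrum of a family is the true cofinality, modulo bounded
sets, of an increasing sequence of members of the family, or of members of its spectrum.
-/

universe u

open Cardinal Ordinal Set Pool.Agent.Helper6.Pcf

namespace Pool.Agent.PcfInc

/-- the spectrum of the family `L` at `mu` -/
def Spec {I : Type u} (kappa mu : Cardinal.{u}) (L : I → Cardinal.{u}) : Set Cardinal.{u} :=
  {th | ∃ J : Set (Set I), IsRep kappa mu th L J}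

/-- a true cofinality of a subfamily is in the spectrum of the family -/
theorem pull_rep {kappa mu lam th : Cardinal.{u}} (hk : kappa.IsRegular) {I0 : Type u}
    {L0 : I0 → Cardinal.{u}} {J0 : Set (Set I0)} (hrep : IsRep kappa mu lam L0 J0)
    (s : kappa.ord.ToType → Cardinal.{u}) (hs : StrictMono s) (hmem : ∀ i, s i ∈ Set.range L0)
    (hsk : ∀ i, kappa < s i) (hlub : IsLUB (Set.range s) mu) (K : Set (Set kappa.ord.ToType))
    (hK : IsKIdeal kappa K) (hJ : Jbd kappa.ord.ToType ⊆ K) (hT : TCF s K th) :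
    th ∈ Spec kappa mu L0 := by
  classical
  have hinf := hk.aleph0_le
  choose e he using hmem
  have hpt : IsKIdeal kappa {Y : Set PUnit.{u + 1} | PUnit.unit ∉ Y} := point_ideal hk _
  have hreg : th.IsRegular := hT.1
  have hTp : TCF (fun _ : PUnit.{u + 1} => th) {Y : Set PUnit.{u + 1} | PUnit.unit ∉ Y} th :=
    TCF_point (fun _ => th) (fun _ => hreg) PUnit.unit
  have hMp : (Set.univ : Set PUnit.{u + 1})ᶜ ∈ {Y : Set PUnit.{u + 1} | PUnit.unit ∉ Y} := by
    rw [Set.compl_univ]; exact Set.notMem_empty _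
  have hunit : #(PUnit.{u + 1}) ≤ kappa := by
    rw [Cardinal.mk_punit]
    exact Cardinal.one_le_aleph0.trans hinf
  have hen : {y | ¬ (L0 (e y) = s y ∧ kappa < s y)} ∈ K := by
    have : {y | ¬ (L0 (e y) = s y ∧ kappa < s y)} = (∅ : Set kappa.ord.ToType) := by
      ext y
      simp only [Set.mem_ofPred_eq, Set.mem_empty_iff_false, iff_false, not_not]
      exact ⟨he y, hsk y⟩
    rw [this]
    exact hK.isKI.empty hinf
  refine ⟨CompI (Set.univ : Set PUnit.{u + 1}) {Y | PUnit.unit ∉ Y} (fun _ => K) (fun _ => e),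
    ⟨hrep.card, hrep.inj, hrep.reg, hrep.lt, hrep.unbounded,
      CompI_ideal hk hMp hpt (fun _ _ => hK), ?_,
      CompI_tcf hk hunit (fun _ => (mk_ord_toType kappa).le) L0 hrep.reg (fun _ => th)
        (fun _ => hreg) Set.univ _ hMp hpt hTp (fun _ => s) (fun _ => K) (fun _ _ => hK)
        (fun _ _ => hT) (fun _ => e) (fun _ _ => hen)⟩⟩
  rintro X ⟨c, hc, hX⟩
  rw [mem_CompI]
  show PUnit.unit ∉ _
  rintro ⟨-, h⟩
  apply h
  apply hJ
  obtain ⟨i, hi⟩ := lub_ex hlub hc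
  refine ⟨i, fun y hy => ?_⟩
  have h1 : L0 (e y) ≤ c := hX _ hy
  rw [he] at h1
  exact (hs.lt_iff_lt.1 (lt_of_le_of_lt h1 hi)).le

theorem theoremA {kappa mu lam : Cardinal.{u}} (hω : kappa = ℵ₀) (hk : kappa.IsRegular)
    (hcof : mu.ord.cof = kappa) (hbig : (2 : Cardinal.{u}) ^ kappa < mu) {I0 : Type u}
    (L0 : I0 → Cardinal.{u}) (J0 : Set (Set I0)) (hrep : IsRep kappa mu lam L0 J0) :
    (∃ s : kappa.ord.ToType → Cardinal.{u}, StrictMono s ∧ (∀ i, s i ∈ Set.range L0) ∧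
      IsLUB (Set.range s) mu ∧ TCF s (Jbd kappa.ord.ToType) lam) ∨
    ∃ (chi : Cardinal.{u}) (s : kappa.ord.ToType → Cardinal.{u}), mu < chi ∧ chi < lam ∧
      StrictMono s ∧ (∀ i, mu < s i ∧ s i ∈ Spec kappa mu L0) ∧ IsLUB (Set.range s) chi ∧
      TCF s (Jbd kappa.ord.ToType) lam := by
  classical
  obtain ⟨s, J, h1, h2, h3, h4, h5, h6⟩ := exists_inc hk hcof hbig L0 J0 hrep
  have hreg : ∀ i, (s i).IsRegular := by
    intro i
    obtain ⟨⟨x, hx⟩, _⟩ := h2 i
    rw [← hx]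
    exact hrep.reg x
  obtain ⟨b, hC, hmax, hsp, hbc, hAdm⟩ := exists_core hk hcof hbig s h1 hreg
    (fun i => (h2 i).2) h3 J h4 h5 h6
  rcases seq_dich hC hω hmax with ⟨E, hE, hcov⟩ | ⟨f, b', hK, hT⟩
  · left
    have hx : Eᶜ ∉ Tr (Jbd kappa.ord.ToType) b := by
      intro h
      have h7 := hAdm.1.isKI.union hk.aleph0_le (hE _ hAdm) (hAdm.2.1 h)
      rw [Set.union_compl_self] at h7
      exact hAdm.1.univ_notMem h7
    obtain ⟨s', a1, a2, a3, a4⟩ := brep_of_orth hk hcof hbig h1 h3 hC hmax Eᶜ hx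
      (fun th hth hlt => ⟨E, by
        rw [Set.inter_compl_self]
        exact hC.base.empty hk.aleph0_le, hcov ⟨th, hth, hlt⟩ (Set.mem_univ _)⟩)
    refine ⟨s', a1, fun i => ?_, a3, a4⟩
    obtain ⟨y, hy⟩ := a2 i
    obtain ⟨⟨x, hx⟩, _⟩ := h2 y
    exact ⟨x, by rw [hx, hy]⟩
  · right
    obtain ⟨chi, t, b1, b2, b3, b4, b5, b6⟩ := inc_of_seq hk (fun i => (f i).1)
      (fun i => loc_regular (f i).2.1) (fun i => loc_kappa_lt hC (f i).2.1)
      (fun i => (f i).2.2) b' hK hT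
    have hmem : ∀ i, mu < t i ∧ t i ∈ Spec kappa mu L0 := by
      intro i
      obtain ⟨j, hj⟩ := b2 i
      rw [hj]
      obtain ⟨K, hK⟩ := (f j).2.1
      exact ⟨(hsp _ (f j).2.1).1, pull_rep hk hrep s h1 (fun i => (h2 i).1)
        (fun i => (Cardinal.cantor kappa).trans (h2 i).2) h3 K hK.1
        ((Tr_sub (Jbd_ideal hk).isKI b).trans hK.2.1) hK.2.2⟩
    have hne : Nonempty kappa.ord.ToType := ⟨ToType.mk ⟨0, hk.ord_pos⟩⟩
    obtain ⟨i0⟩ := hne
    refine ⟨chi, t, ?_, b4, b1, hmem, b3, b6⟩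
    exact lt_of_lt_of_le (hmem i0).1 (b3.1 ⟨i0, rfl⟩)

end Pool.Agent.PcfInc
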