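import Pool.Agent.PcfInc.ThmT

/-!
Countable case: the bounding number.
-/

universe u

open Cardinal Ordinal Set Pool.Agent.Helper6.Pcf

namespace Pool.Agent.PcfInc

/-- distinct points at which members of `S` accumulate are separated by members of `S` -/
theorem XS_le {kappa mu lam : Cardinal.{u}} {S : Set Cardinal.{u}} (hlam : lam ∈ S) :
    #(XS kappa mu lam S) ≤ #S := by
  classical
  have hne : ∀ chi : XS kappa mu lam S, {th | th ∈ S ∧ chi.1 ≤ th}.Nonempty := fun chi =>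
    ⟨lam, hlam, chi.2.2.1.le⟩
  refine Cardinal.mk_le_of_injective
    (f := fun chi : XS kappa mu lam S => (⟨sInf {th | th ∈ S ∧ chi.1 ≤ th},
      (csInf_mem (hne chi)).1⟩ : S)) ?_
  have key : ∀ a b : XS kappa mu lam S, a.1 < b.1 →
      sInf {th | th ∈ S ∧ a.1 ≤ th} < sInf {th | th ∈ S ∧ b.1 ≤ th} := by
    intro a b hab
    obtain ⟨I, L, J, h1, h2⟩ := b.2.2.2.2
    obtain ⟨x, hx⟩ := h1.unbounded _ hab
    refine lt_of_le_of_lt (csInf_le' ⟨h2 x, hx.le⟩) ?_
    exact lt_of_lt_of_le (h1.lt x) (csInf_mem (hne b)).2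
  intro a b hab
  have h3 : sInf {th | th ∈ S ∧ a.1 ≤ th} = sInf {th | th ∈ S ∧ b.1 ≤ th} :=
    congrArg Subtype.val hab
  apply Subtype.ext
  by_contra hne'
  rcases lt_or_gt_of_ne hne' with h | h
  · exact absurd h3 (key a b h).ne
  · exact absurd h3 (key b a h).ne'

theorem theoremB {kappa mu nu : Cardinal.{u}} (hω : kappa = ℵ₀) (hk : kappa.IsRegular)
    (hcof : mu.ord.cof = kappa) (hbig : (2 : Cardinal.{u}) ^ kappa < mu) (hkn : kappa ≤ nu)
    (hB : Bnd kappa nu) {I0 : Type u} (L0 : I0 → Cardinal.{u}) (lam : Cardinal.{u})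
    (hrep : lam ∈ Spec kappa mu L0)
    (hX : ∀ th, th ≤ lam → th ∈ Spec kappa mu L0 →
      #(XS kappa mu th (Spec kappa mu L0)) ≤ Cardinal.lift.{u + 1} nu) :
    BIn kappa mu lam (Set.range L0) := by
  induction lam using WellFoundedLT.induction with
  | ind lam ih =>
    obtain ⟨J, hr⟩ := hrep
    rcases theoremA hω hk hcof hbig L0 J hr with ⟨s, h1, h2, h3, h4⟩ |
      ⟨chi, s, h1, h2, h3, h4, h5, h6⟩
    · exact ⟨s, h1, h2, h3, h4⟩
    · refine theoremT hk hcof hbig hkn hB (Set.range L0) (Spec kappa mu L0) ?_ ?_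
        (hX lam le_rfl ⟨J, hr⟩) s (fun i => ?_) h6
      · rintro _ ⟨x, rfl⟩; exact hr.reg x
      · intro s' K' th' a1 a2 a3 a4 a5 a6 a7
        exact pull_rep hk hr s' a1 a2 a3 a4 K' a5 a6 a7
      · have hlt : s i < lam := lt_of_le_of_lt (h5.1 ⟨i, rfl⟩) h2
        exact ih (s i) hlt (h4 i).2 (fun th hth => hX th (hth.trans hlt.le))

/-- the bounding condition for functions on the natural numbers -/
theorem Bnd_of_nat {nu : Cardinal.{u}}
    (h : ∀ F : Set (ℕ → ℕ), Cardinal.lift.{u} #F ≤ nu →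
      ∃ g : ℕ → ℕ, ∀ f ∈ F, ∃ m, ∀ n, m < n → f n ≤ g n) : Bnd (ℵ₀ : Cardinal.{u}) nu := by
  classical
  have h1 : ∀ i : (ℵ₀ : Cardinal.{u}).ord.ToType, ∃ n : ℕ, (ToType.toOrd i).1 = n := by
    intro i
    have h2 : (ToType.toOrd i).1 < Ordinal.omega0 :=
      lt_of_lt_of_eq (ToType.toOrd i).2 ord_aleph0
    exact Ordinal.lt_omega0.1 h2
  choose r hr using h1
  have h3 : ∀ m : ℕ, (m : Ordinal.{u}) < (ℵ₀ : Cardinal.{u}).ord := by
    intro m
    rw [ord_aleph0]
    exact Ordinal.natCast_lt_omega0 m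
  let q : ℕ → (ℵ₀ : Cardinal.{u}).ord.ToType := fun m => ToType.mk ⟨(m : Ordinal.{u}), h3 m⟩
  have hrq : ∀ m, r (q m) = m := by
    intro m
    have h4 := hr (q m)
    simp only [q, OrderIso.symm_apply_apply] at h4
    exact_mod_cast h4.symm
  have hle : ∀ i j, r i ≤ r j → i ≤ j := by
    intro i j hij
    have h4 : (ToType.toOrd i) ≤ (ToType.toOrd j) := by
      show (ToType.toOrd i).1 ≤ (ToType.toOrd j).1
      rw [hr, hr]
      exact_mod_cast hij
    have h5 := ToType.mk.monotone h4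
    simpa using h5
  have hqr : ∀ i, q (r i) = i := fun i =>
    le_antisymm (hle _ _ (hrq _).le) (hle _ _ (hrq _).ge)
  have hlt : ∀ i j, i < j → r i < r j := by
    intro i j hij
    by_contra hcon
    exact absurd (hle _ _ (not_lt.1 hcon)) (not_le.2 hij)
  intro F hF
  obtain ⟨g, hg⟩ := h ((fun f : (ℵ₀ : Cardinal.{u}).ord.ToType → (ℵ₀ : Cardinal.{u}).ord.ToType =>
      fun n : ℕ => r (f (q n))) '' F) (by
    have h6 := Cardinal.mk_image_le_lift
      (f := fun f : (ℵ₀ : Cardinal.{u}).ord.ToType → (ℵ₀ : Cardinal.{u}).ord.ToType =>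
        fun n : ℕ => r (f (q n))) (s := F)
    rw [Cardinal.lift_id'.{0, u}] at h6
    exact h6.trans hF)
  refine ⟨fun i => q (g (r i)), fun f hf => ?_⟩
  obtain ⟨m, hm⟩ := hg _ ⟨f, hf, rfl⟩
  refine ⟨q m, fun i hi => ?_⟩
  have h7 := hm (r i) (by rw [← hrq m]; exact hlt _ _ hi)
  simp only [hqr] at h7
  exact hle _ _ (by rw [hrq]; exact h7)

end Pool.Agent.PcfInc
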