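import Pool.Agent.PcfInc.Map
import Pool.Agent.PcfInc.ThmA

/-!
Transitivity of representations modulo the bounded sets.
-/

universe u

open Cardinal Ordinal Set Pool.Agent.Helper6.Pcf

namespace Pool.Agent.PcfInc

section

variable {kappa mu lam nu : Cardinal.{u}}

/-- every family of at most `nu` functions on `kappa` is bounded modulo the bounded sets -/
def Bnd (kappa nu : Cardinal.{u}) : Prop :=
  ∀ F : Set (kappa.ord.ToType → kappa.ord.ToType), #F ≤ nu →
    ∃ g : kappa.ord.ToType → kappa.ord.ToType, ∀ f ∈ F, ∃ b, ∀ i, b < i → f i ≤ g i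

theorem mem_Jbd_iff (hk : kappa.IsRegular) (X : Set kappa.ord.ToType) :
    X ∈ Jbd kappa.ord.ToType ↔ #X < kappa := by
  constructor
  · rintro ⟨b, hb⟩
    exact lt_of_le_of_lt (Cardinal.mk_le_mk_of_subset (fun x hx => hb x hx)) (pIntSelf_Iic hk b)
  · intro h
    have h1 : X = ⋃ x : X, {x.1} := by
      ext y; simp
    rw [h1]
    exact (Jbd_ideal hk).isKI.iUnion _ h (fun x => ⟨x.1, fun y hy => (show y = x.1 from hy).le⟩)

/-- `lam` is represented modulo bounded sets by an increasing sequence of members of `S` -/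
def BIn (kappa mu lam : Cardinal.{u}) (S : Set Cardinal.{u}) : Prop :=
  ∃ s : kappa.ord.ToType → Cardinal.{u}, StrictMono s ∧ (∀ i, s i ∈ S) ∧
    IsLUB (Set.range s) mu ∧ TCF s (Jbd kappa.ord.ToType) lam

theorem theoremT (hk : kappa.IsRegular) (hcof : mu.ord.cof = kappa)
    (hbig : (2 : Cardinal.{u}) ^ kappa < mu) (hkn : kappa ≤ nu) (hB : Bnd kappa nu)
    (S Sp : Set Cardinal.{u}) (hS : ∀ c ∈ S, c.IsRegular)
    (hSp : ∀ (s : kappa.ord.ToType → Cardinal.{u}) (K : Set (Set kappa.ord.ToType)) (th),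
      StrictMono s → (∀ i, s i ∈ S) → (∀ i, kappa < s i) → IsLUB (Set.range s) mu →
      IsKIdeal kappa K → Jbd kappa.ord.ToType ⊆ K → TCF s K th → th ∈ Sp)
    (hX : #(XS kappa mu lam Sp) ≤ Cardinal.lift.{u + 1} nu)
    (t : kappa.ord.ToType → Cardinal.{u}) (ht : ∀ i, BIn kappa mu (t i) S)
    (hT : TCF t (Jbd kappa.ord.ToType) lam) : BIn kappa mu lam S := by
  classical
  have hinf := hk.aleph0_le
  have hJ := Jbd_ideal hk
  choose sq a1 a2 a3 a4 using ht
  have hne : Nonempty kappa.ord.ToType := ⟨ToType.mk ⟨0, hk.ord_pos⟩⟩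
  obtain ⟨s, e, hs1, hs2, hs3, hs4, hs5, hs6, hs7⟩ := union_map hk hcof hbig
    (mk_ord_toType kappa).le hne t (fun d => (a4 d).1) sq (fun _ => Jbd kappa.ord.ToType)
    (fun d => ⟨a1 d, fun i => hS _ (a2 d i), a3 d, hJ, subset_rfl, a4 d⟩)
  have hsS : ∀ i, s i ∈ S := by
    intro i
    obtain ⟨d, j, hj⟩ := hs2 i
    rw [hj]; exact a2 d j
  obtain ⟨hK1, hK2, hK3⟩ := hs7 lam _ hJ hT
  obtain ⟨b, hC, hmax, hsp, hbc, hAdm⟩ := exists_core hk hcof hbig s hs1 hs3 hs4 hs5 _ hK1 hK2 hK3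
  obtain ⟨Es, hE1, hE2, hE3⟩ := exists_few (mu := mu) hC hmax (fun th h => (hsp th h).1) Sp
    (by
      rintro th ⟨K1, hK1⟩ _
      exact hSp s K1 th hs1 hsS (fun i => (Cardinal.cantor kappa).trans (hs4 i)) hs5 hK1.1
        ((Tr_sub hJ.isKI b).trans hK1.2.1) hK1.2.2)
  set Es' : Set (Set kappa.ord.ToType) := insert bᶜ Es with hEs'
  have hEsK : ∀ E ∈ Es', {d | {i | e d i ∈ E} ∉ Jbd kappa.ord.ToType} ∈
      Jbd kappa.ord.ToType := by
    intro E hE
    have h1 : E ∈ CompI Set.univ (Jbd kappa.ord.ToType) (fun _ => Jbd kappa.ord.ToType) e := by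
      rcases hE with hE | hE
      · rw [hE]; exact hAdm.2.1 hbc
      · exact hE1 hE _ hAdm
    rw [mem_CompI] at h1
    refine hJ.down _ _ ?_ h1
    intro d hd
    exact ⟨Set.mem_univ _, hd⟩
  have hcard : #Es' ≤ nu := by
    have h1 : Cardinal.lift.{u + 1} #Es ≤ Cardinal.lift.{u + 1} nu := by
      refine hE2.trans ?_
      refine (add_le_add (Cardinal.lift_le.2 hkn) hX).trans ?_
      rw [Cardinal.add_eq_self]
      rw [aleph0_le_lift]; exact hinf.trans hkn
    refine mk_insert_le.trans ?_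
    refine (add_le_add (Cardinal.lift_le.1 h1) le_rfl).trans ?_
    rw [Cardinal.add_one_eq (hinf.trans hkn)]
  -- the functions
  obtain ⟨i00⟩ := hne
  let f : Set kappa.ord.ToType → kappa.ord.ToType → kappa.ord.ToType := fun E d =>
    if h : {i | e d i ∈ E} ∈ Jbd kappa.ord.ToType then h.choose else i00
  have hf : ∀ E d, {i | e d i ∈ E} ∈ Jbd kappa.ord.ToType → ∀ i, e d i ∈ E → i ≤ f E d := by
    intro E d h i hi
    have h1 : f E d = h.choose := dif_pos h
    rw [h1]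
    exact h.choose_spec i hi
  obtain ⟨g, hg⟩ := hB (f '' Es') (Cardinal.mk_image_le.trans hcard)
  -- the set
  have hj : ∀ d, ∃ i, g d < i ∧ d < e d i := by
    intro d
    by_contra hcon
    push Not at hcon
    apply hJ.univ_notMem
    refine hJ.down _ _ ?_ (hJ.isKI.union hinf
      (show Set.Iic (g d) ∈ Jbd kappa.ord.ToType from ⟨g d, fun x hx => hx⟩)
      (hs6 d (Set.Iic d) ⟨d, fun x hx => hx⟩))
    intro i _
    by_cases h : g d < i
    · exact Or.inr (hcon i h)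
    · exact Or.inl (not_lt.1 h)
  choose j hj1 hj2 using hj
  set x : Set kappa.ord.ToType := Set.range fun d => e d (j d) with hx
  have hxE : ∀ E ∈ Es', E ∩ x ∈ Jbd kappa.ord.ToType := by
    intro E hE
    obtain ⟨b0, hb0⟩ := hg _ ⟨E, hE, rfl⟩
    have h1 := hJ.isKI.union hinf (hEsK E hE)
      (show Set.Iic b0 ∈ Jbd kappa.ord.ToType from ⟨b0, fun x hx => hx⟩)
    rw [mem_Jbd_iff hk] at h1 ⊢
    refine lt_of_le_of_lt (Cardinal.mk_le_mk_of_subset ?_)
      (lt_of_le_of_lt (Cardinal.mk_image_le (f := fun d => e d (j d))) h1)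
    rintro y ⟨hyE, d, rfl⟩
    refine ⟨d, ?_, rfl⟩
    by_contra hcon
    rw [Set.mem_union, not_or] at hcon
    have h2 : {i | e d i ∈ E} ∈ Jbd kappa.ord.ToType := by
      by_contra h
      exact hcon.1 h
    have h3 := hf E d h2 (j d) hyE
    have h4 := hb0 d (not_le.1 hcon.2)
    exact absurd (h3.trans h4) (not_le.2 (hj1 d))
  have hxb : x ∉ Tr (Jbd kappa.ord.ToType) b := by
    intro h
    have h1 : x ∩ b ∈ Jbd kappa.ord.ToType := h
    have h2 := hJ.isKI.union hinf h1 (hxE bᶜ (Or.inl rfl))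
    have h3 : x ∈ Jbd kappa.ord.ToType := by
      refine hJ.down _ _ ?_ h2
      intro y hy
      by_cases h : y ∈ b
      · exact Or.inl ⟨hy, h⟩
      · exact Or.inr ⟨h, hy⟩
    obtain ⟨c, hc⟩ := h3
    exact absurd (hc _ ⟨c, rfl⟩) (not_le.2 (hj2 c))
  obtain ⟨s', b1, b2, b3, b4⟩ := brep_of_orth hk hcof hbig hs1 hs5 hC hmax x hxb
    (fun th hth hlt => by
      obtain ⟨E, h1, h2⟩ := hE3 th hth hlt
      exact ⟨E, Tr_sub hJ.isKI b (hxE E (Or.inr h1)), h2⟩)
  refine ⟨s', b1, fun i => ?_, b3, b4⟩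
  obtain ⟨y, hy⟩ := b2 i
  rw [hy]; exact hsS y

theorem Bnd_self (hk : kappa.IsRegular) : Bnd kappa kappa := by
  classical
  intro F hF
  obtain ⟨c⟩ : Nonempty (F ↪ kappa.ord.ToType) := by
    rw [← Cardinal.le_def, mk_ord_toType]; exact hF
  have key : ∀ i : kappa.ord.ToType, ∃ m : kappa.ord.ToType, ∀ f : F, c f < i → f.1 i ≤ m := by
    intro i
    have h1 : (⋃ f : {f : F | c f < i}, ({f.1.1 i} : Set kappa.ord.ToType)) ∈
        Jbd kappa.ord.ToType := by
      refine (Jbd_ideal hk).isKI.iUnion (T := {f : F | c f < i}) _ ?_ ?_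
      · refine lt_of_le_of_lt ?_ (mk_Iio_toType_ord_lt i)
        refine Cardinal.mk_le_of_injective
          (f := fun f : {f : F | c f < i} => (⟨c f.1, f.2⟩ : Set.Iio i)) ?_
        intro a b hab
        exact Subtype.ext (c.injective (congrArg Subtype.val hab))
      · intro f
        exact ⟨f.1.1 i, fun y hy => (show y = f.1.1 i from hy).le⟩
    obtain ⟨m, hm⟩ := h1
    refine ⟨m, fun f hf => hm _ ?_⟩
    exact Set.mem_iUnion.2 ⟨⟨f, hf⟩, rfl⟩
  choose g hg using key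
  exact ⟨g, fun f hf => ⟨c ⟨f, hf⟩, fun i hi => hg i ⟨f, hf⟩ hi⟩⟩

end

end Pool.Agent.PcfInc
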