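import Pool.Agent.PcfInc.Basics
import Pool.Agent.Helper6.Pcf.LocC

/-!
Transitivity of the generators, and the closed sets of members of the spectrum.
-/

universe u

open Cardinal Ordinal Set Pool.Agent.Helper6.Pcf

namespace Pool.Agent.PcfInc

section

variable {I : Type u} {kappa lam : Cardinal.{u}} {L : I → Cardinal.{u}} {B : Set (Set I)}
  {F : PT kappa L B lam → Ordinal.{u} → I → Ordinal.{u}}
  {h : I → Ordinal.{u}} {G : Ordinal.{u} → I → Ordinal.{u}}
  {C : Ordinal.{u} → PT kappa L B lam → Ordinal.{u}} {g : I → Ordinal.{u}}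
  {c : PT kappa L B lam → Ordinal.{u}}

theorem DS_adm (hC : Core kappa L B lam) (hF : GoodSys F) {T : Type u} (hT : #T ≤ kappa)
    (f : T → PT kappa L B lam) {K : Set (Set T)} (hK : IsKIdeal kappa K) {sg : Cardinal.{u}}
    (ht : TCF (fun t => (f t).1) K sg) : Adm kappa L B sg (DS f K) :=
  ⟨DS_ideal hC f hK, DS_base hC f hK, DS_tcf hC hF hT f hK ht⟩

theorem Bhat_trans (hC : Core kappa L B lam) (hF : GoodSys F) (hch : ChainP F h G C)
    (hl : LimP F h G C g c) {T : Type u} (hT : #T ≤ kappa) (f : T → PT kappa L B lam)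
    {K : Set (Set T)} (hK : IsKIdeal kappa K) (s : PT kappa L B lam)
    (ht : TCF (fun t => (f t).1) K s.1) :
    {t | ¬ Bhat F g c (f t) ⊆ Bhat F g c s} ∈ K := by
  classical
  have hk := hC.reg.aleph0_le
  have hJ := fun t => (loc_adm hC (f t).2.1).1
  have hfreg : ∀ t, (f t).1.IsRegular := fun t => loc_regular (f t).2.1
  have hadm := DS_adm hC hF hT f hK ht
  have hsubD : Jst kappa L B s.1 ⊆ DS f K := loc_sub hadm
  have hle : {t | c (f t) < kf F (F s (c s)) (f t)} ∈ K := by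
    have h1 : {x | g x < F s (c s) x} ∈ DS f K := hsubD (hl.F_le_g hC hF hch s)
    refine hK.down _ _ ?_ h1
    intro t ht1 ht2
    have h2 : LeMod (Jst kappa L B (f t).1) (F s (c s)) g := ht2
    have h3 := h2.trans (hJ t).isKI hk (hl.g_le_F hC hF hch (f t))
    exact absurd (kf_le (hl.clt (f t)) h3) (not_le.2 ht1)
  have hge : {t | kf F (F s (c s)) (f t) < c (f t)} ∈ K := by
    refine stab hC hT hK.down (fun a => {t | kf F (F s (c s)) (f t) < C a (f t)}) ?_ ?_ _ ?_
    · intro a b hb ha t ht1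
      exact lt_trans (show kf F (F s (c s)) (f t) < C b (f t) from ht1) (hch.Cmono a b hb ha (f t))
    · intro a ha
      have ha1 := succ_ord_add hk ha
      have ha2 := succ_ord_add hk ha1
      have h1 : {x | F s (c s) x < G (a + 1) x} ∈ DS f K := by
        apply hsubD
        exact LimP.G_le_F hC hF hch ha1 s (hl.Cle _ ha2 s).le (hl.clt s)
      refine hK.down _ _ ?_ h1
      intro t ht1 ht2
      have h2 : LeMod (Jst kappa L B (f t).1) (G (a + 1)) (F s (c s)) := ht2
      have h3 : LeMod (Jst kappa L B (f t).1) (F (f t) (C a (f t) + 1)) (F s (c s)) :=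
        LeMod.le_trans (hJ t).isKI
          (hch.GF (a + 1) a (Order.lt_add_one_iff.2 le_rfl) ha1 (f t)) h2
      have h4 := kf_mem hC hF (hF.inp s (c s) (hl.clt s)) (f t)
      have h5 := h3.trans (hJ t).isKI hk h4.2
      have h6 := hF.le_of_leMod hC (f t)
        (lt_add_one_ord (hfreg t) (hch.Clt a ha (f t))) h5
      have h7 : kf F (F s (c s)) (f t) < C a (f t) := ht1
      exact absurd h7 (not_lt.2 ((Order.lt_add_one_iff.2 le_rfl).le.trans h6))
    · intro t ht1
      exact hl.csup (f t) _ ht1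
  refine hK.down _ _ ?_ (hK.isKI.union hk hle hge)
  intro t ht1
  by_contra hcon
  apply ht1
  apply Bhat_sub
  by_contra hne
  rcases lt_or_gt_of_ne hne with h1 | h1
  · exact hcon (Or.inr h1)
  · exact hcon (Or.inl h1)

/-- covered sets of members of the spectrum -/
def CovP (A : Set (PT kappa L B lam)) : Prop :=
  ∃ E ∈ Jst kappa L B lam, ∀ z ∈ A, Eᶜ ∈ Jst kappa L B z.1

/-- closed sets of members of the spectrum -/
def ClP (A : Set (PT kappa L B lam)) : Prop :=
  ∀ (f : kappa.ord.ToType → PT kappa L B lam) (K : Set (Set kappa.ord.ToType)),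
    IsKIdeal kappa K → ∀ s : PT kappa L B lam, {t | f t ∉ A} ∈ K →
      TCF (fun t => (f t).1) K s.1 → s ∈ A

theorem CovP.mono {A A' : Set (PT kappa L B lam)} (hA : A ⊆ A') (h : CovP A') : CovP A := by
  obtain ⟨E, hE, h1⟩ := h
  exact ⟨E, hE, fun z hz => h1 z (hA hz)⟩

/-- removing a covered part -/
theorem ClP_diff (hC : Core kappa L B lam) (hF : GoodSys F) {A : Set (PT kappa L B lam)}
    (hA : ClP A) (E : Set I) : ClP (A ∩ {z | Eᶜ ∉ Jst kappa L B z.1}) := by
  have hk := hC.reg.aleph0_le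
  intro f K hK s hf ht
  refine ⟨hA f K hK s (hK.down _ _ ?_ hf) ht, ?_⟩
  · intro t h1 h2
    exact h1 h2.1
  · intro h1
    have hadm := DS_adm hC hF (by rw [mk_ord_toType]) f hK ht
    have h2 : {t | Eᶜ ∉ Jst kappa L B (f t).1} ∈ K := h1 _ hadm
    apply hK.univ_notMem
    refine hK.down _ _ ?_ (hK.isKI.union hk h2 hf)
    intro t _
    by_cases h3 : Eᶜ ∈ Jst kappa L B (f t).1
    · exact Or.inr (fun h4 => h4.2 h3)
    · exact Or.inl h3

theorem CovP_diff (hC : Core kappa L B lam) {A : Set (PT kappa L B lam)} {E : Set I}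
    (hE : E ∈ Jst kappa L B lam) (h : CovP (A ∩ {z | Eᶜ ∉ Jst kappa L B z.1})) : CovP A := by
  have hk := hC.reg.aleph0_le
  obtain ⟨E', hE', h1⟩ := h
  refine ⟨E ∪ E', (loc_adm hC hC.lamP).1.isKI.union hk hE hE', fun z hz => ?_⟩
  have hJz := (loc_adm hC z.2.1).1
  by_cases h2 : Eᶜ ∈ Jst kappa L B z.1
  · exact hJz.down _ _ (Set.compl_subset_compl.2 Set.subset_union_left) h2
  · exact hJz.down _ _ (Set.compl_subset_compl.2 Set.subset_union_right) (h1 z ⟨hz, h2⟩)

theorem step (hC : Core kappa L B lam) (hF : GoodSys F) (hch : ChainP F h G C)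
    (hl : LimP F h G C g c) {A : Set (PT kappa L B lam)} (hA : ClP A) (hnc : ¬ CovP A) (a : I) :
    ∃ A' : Set (PT kappa L B lam), A' ⊆ A ∧ ClP A' ∧ ¬ CovP A' ∧
      ((∀ z ∈ A', a ∈ Bhat F g c z) ∨ ∀ z ∈ A', a ∉ Bhat F g c z) := by
  classical
  have hk := hC.reg.aleph0_le
  by_cases hcov : CovP (A ∩ {z | a ∈ Bhat F g c z})
  · obtain ⟨E, hE, h1⟩ := hcov
    refine ⟨A ∩ {z | Eᶜ ∉ Jst kappa L B z.1}, Set.inter_subset_left, ClP_diff hC hF hA E,
      fun h2 => hnc (CovP_diff hC hE h2), Or.inr ?_⟩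
    rintro z ⟨hz1, hz2⟩ hz3
    exact hz2 (h1 z ⟨hz1, hz3⟩)
  · refine ⟨A ∩ {z | a ∈ Bhat F g c z}, Set.inter_subset_left, ?_, hcov, Or.inl fun z hz => hz.2⟩
    intro f K hK s hf ht
    refine ⟨hA f K hK s (hK.down _ _ ?_ hf) ht, ?_⟩
    · intro t h1 h2
      exact h1 h2.1
    · have h1 := Bhat_trans hC hF hch hl (by rw [mk_ord_toType]) f hK s ht
      by_contra hcon
      apply hK.univ_notMem
      refine hK.down _ _ ?_ (hK.isKI.union hk h1 hf)
      intro t _
      by_cases h2 : Bhat F g c (f t) ⊆ Bhat F g c s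
      · right
        intro h3
        exact hcon (h2 h3.2)
      · exact Or.inl h2

end

end Pool.Agent.PcfInc
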